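import Pool.Agent.Helper44.JE.Trig

/-!
MP_ce5406_an, block T11: local equidistribution of the phases.
-/

open Filter Topology Finset
open scoped BigOperators ComplexConjugate

namespace Pool.Agent.JE.H44

/-- The statement of block T5c. -/
def EquiHyp : Prop := ∀ (c : ℝ), PosNonInt c → ∀ (g : ℝ → ℂ), Continuous g →
    Function.Periodic g 1 →
    Tendsto (fun N => avg N (fun n : ℕ => g ((n : ℝ) ^ c))) atTop (𝓝 (∫ x in (0:ℝ)..1, g x))

noncomputable def cl (z : ℝ) : ℝ := max 0 (min z 1)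

theorem cl_nonneg (z : ℝ) : 0 ≤ cl z := le_max_left _ _
theorem cl_le_one (z : ℝ) : cl z ≤ 1 := max_le zero_le_one (min_le_right _ _)
theorem cl_mono {z w : ℝ} (h : z ≤ w) : cl z ≤ cl w :=
  max_le_max le_rfl (min_le_min h le_rfl)
theorem cl_of_nonpos {z : ℝ} (h : z ≤ 0) : cl z = 0 := by
  simp only [cl]
  rw [min_eq_left (by linarith), max_eq_left h]
theorem cl_of_one_le {z : ℝ} (h : 1 ≤ z) : cl z = 1 := by
  simp only [cl]
  rw [min_eq_right h, max_eq_right zero_le_one]
theorem continuous_cl : Continuous cl := by unfold cl; fun_prop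

/-- tents -/
noncomputable def tn (K j : ℕ) (x : ℝ) : ℝ := cl (K * x - j) - cl (K * x - (j + 1))
/-- the neighbourhood of the integers -/
noncomputable def eta (K : ℕ) (x : ℝ) : ℝ := 1 - cl (K * x) + cl (K * x - (K - 1))

theorem tn_nonneg (K j : ℕ) (x : ℝ) : 0 ≤ tn K j x :=
  sub_nonneg.mpr (cl_mono (by linarith))

theorem tn_le_one (K j : ℕ) (x : ℝ) : tn K j x ≤ 1 := by
  have h1 := cl_le_one (K * x - j)
  have h2 := cl_nonneg (K * x - (j + 1))
  simp only [tn]
  linarith

theorem eta_nonneg (K : ℕ) (x : ℝ) : 0 ≤ eta K x := by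
  have h1 := cl_le_one (K * x)
  have h2 := cl_nonneg (K * x - (K - 1))
  simp only [eta]
  linarith

theorem eta_le_one (K : ℕ) (hK : 1 ≤ K) (x : ℝ) : eta K x ≤ 1 := by
  have hKr : (1 : ℝ) ≤ K := by exact_mod_cast hK
  have h1 : cl (K * x - (K - 1)) ≤ cl (K * x) := cl_mono (by linarith)
  simp only [eta]
  linarith

theorem tn_support (K j : ℕ) (x : ℝ) (h : tn K j x ≠ 0) : (j : ℝ) < K * x ∧ K * x < j + 2 := by
  constructor
  · by_contra hcon
    push Not at hcon
    apply h
    simp only [tn]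
    rw [cl_of_nonpos (by linarith), cl_of_nonpos (by linarith), sub_zero]
  · by_contra hcon
    push Not at hcon
    apply h
    simp only [tn]
    rw [cl_of_one_le (by linarith), cl_of_one_le (by linarith), sub_self]

theorem sum_tn (K : ℕ) (hK : 1 ≤ K) (x : ℝ) : ∑ j ∈ range (K - 1), tn K j x = 1 - eta K x := by
  have h1 : ∀ j : ℕ, tn K j x = cl (K * x - (j : ℕ)) - cl (K * x - ((j + 1 : ℕ) : ℝ)) := by
    intro j; simp only [tn]; push_cast; rfl
  simp only [h1]
  rw [Finset.sum_range_sub' (fun j : ℕ => cl (K * x - (j : ℝ)))]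
  simp only [eta]
  rw [Nat.cast_sub hK]
  push_cast
  rw [sub_zero]
  ring

noncomputable def tf (K j : ℕ) (y : ℝ) : ℂ := ((tn K j (Int.fract y) : ℝ) : ℂ)
noncomputable def ef (K : ℕ) (y : ℝ) : ℂ := ((eta K (Int.fract y) : ℝ) : ℂ)

theorem tf_cont (K j : ℕ) (hj : j + 2 ≤ K) : Continuous (tf K j) := by
  have hjr : (j : ℝ) + 2 ≤ K := by exact_mod_cast hj
  have h1 : Continuous (tn K j ∘ Int.fract) := by
    refine ContinuousOn.comp_fract'' ?_ ?_
    · refine Continuous.continuousOn ?_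
      unfold tn
      exact ((continuous_cl.comp (by fun_prop)).sub (continuous_cl.comp (by fun_prop)))
    · have : (0 : ℝ) ≤ j := Nat.cast_nonneg j
      simp only [tn, mul_zero, mul_one]
      rw [cl_of_nonpos (by linarith), cl_of_nonpos (by linarith), cl_of_one_le (by linarith),
        cl_of_one_le (by linarith)]
      norm_num
  exact Complex.continuous_ofReal.comp h1

theorem tf_per (K j : ℕ) : Function.Periodic (tf K j) 1 := fun x => by
  simp only [tf, Int.fract_add_one]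

theorem tf_le (K j : ℕ) (x : ℝ) : ‖tf K j x‖ ≤ 1 := by
  simp only [tf, Complex.norm_real, Real.norm_eq_abs]
  rw [abs_of_nonneg (tn_nonneg _ _ _)]
  exact tn_le_one _ _ _

theorem ef_cont (K : ℕ) (hK : 1 ≤ K) : Continuous (ef K) := by
  have hKr : (1 : ℝ) ≤ K := by exact_mod_cast hK
  have h1 : Continuous (eta K ∘ Int.fract) := by
    refine ContinuousOn.comp_fract'' ?_ ?_
    · refine Continuous.continuousOn ?_
      unfold eta
      exact (continuous_const.sub (continuous_cl.comp (by fun_prop))).add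
        (continuous_cl.comp (by fun_prop))
    · simp only [eta, mul_zero, mul_one]
      rw [cl_of_nonpos le_rfl, cl_of_nonpos (by linarith), cl_of_one_le (by linarith),
        cl_of_one_le (by linarith)]
      norm_num
  exact Complex.continuous_ofReal.comp h1

theorem ef_per (K : ℕ) : Function.Periodic (ef K) 1 := fun x => by
  simp only [ef, Int.fract_add_one]

theorem ef_norm (K : ℕ) (x : ℝ) : ‖ef K x‖ = eta K (Int.fract x) := by
  simp only [ef, Complex.norm_real, Real.norm_eq_abs]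
  rw [abs_of_nonneg (eta_nonneg _ _)]

theorem ef_le (K : ℕ) (hK : 1 ≤ K) (x : ℝ) : ‖ef K x‖ ≤ 1 := by
  rw [ef_norm]; exact eta_le_one K hK _

theorem ef_integral (K : ℕ) (hK : 2 ≤ K) : ‖∫ x in (0:ℝ)..1, ef K x‖ ≤ 2 / K := by
  have hKr : (2 : ℝ) ≤ K := by exact_mod_cast hK
  have hK0 : (0 : ℝ) < K := by linarith
  have hc := ef_cont K (by omega)
  have hi : ∀ a b : ℝ, IntervalIntegrable (ef K) MeasureTheory.volume a b :=
    fun a b => hc.intervalIntegrable a b
  have hle : (1 : ℝ) / K ≤ (K - 1) / K := div_le_div_of_nonneg_right (by linarith) hK0.le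
  rw [← intervalIntegral.integral_add_adjacent_intervals (hi 0 (1 / K)) (hi (1 / K) 1),
    ← intervalIntegral.integral_add_adjacent_intervals (hi (1 / K) ((K - 1) / K))
      (hi ((K - 1) / K) 1)]
  have h1 : ‖∫ x in (0:ℝ)..(1 / K), ef K x‖ ≤ 1 / K := by
    have := intervalIntegral.norm_integral_le_of_norm_le_const (a := 0) (b := 1 / (K : ℝ))
      (f := ef K) (C := 1) (fun x _ => ef_le K (by omega) x)
    rw [sub_zero, abs_of_pos (by positivity), one_mul] at this
    exact this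
  have h2 : ‖∫ x in (1 / (K : ℝ))..((K - 1) / K), ef K x‖ ≤ 0 := by
    have := intervalIntegral.norm_integral_le_of_norm_le_const (a := 1 / (K : ℝ))
      (b := (K - 1) / (K : ℝ)) (f := ef K) (C := 0) (fun x hx => by
        rw [Set.uIoc_of_le hle] at hx
        rw [ef_norm]
        have hx1 : 1 < K * x := by
          have := hx.1
          rw [div_lt_iff₀ hK0] at this
          linarith
        have hx2 : K * x ≤ K - 1 := by
          have := hx.2
          rw [le_div_iff₀ hK0] at this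
          linarith
        have hx0 : 0 ≤ x := by
          have : 0 < (K : ℝ) * x := by linarith
          exact (pos_of_mul_pos_right this hK0.le).le
        have hx3 : x < 1 := by
          by_contra hcon
          push Not at hcon
          nlinarith
        rw [Int.fract_eq_self.mpr ⟨hx0, hx3⟩]
        simp only [eta]
        rw [cl_of_one_le hx1.le, cl_of_nonpos (by linarith)]
        norm_num)
    rwa [zero_mul] at this
  have h3 : ‖∫ x in ((K - 1) / (K : ℝ))..1, ef K x‖ ≤ 1 / K := by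
    have := intervalIntegral.norm_integral_le_of_norm_le_const (a := (K - 1) / (K : ℝ)) (b := 1)
      (f := ef K) (C := 1) (fun x _ => ef_le K (by omega) x)
    have e1 : |1 - (K - 1) / (K : ℝ)| = 1 / K := by
      rw [show 1 - (K - 1) / (K : ℝ) = 1 / K by field_simp; ring, abs_of_pos (by positivity)]
    rwa [e1, one_mul] at this
  have h4 := norm_add_le (∫ x in (0:ℝ)..(1 / K), ef K x)
    ((∫ x in (1 / (K : ℝ))..((K - 1) / K), ef K x) + ∫ x in ((K - 1) / (K : ℝ))..1, ef K x)
  have h5 := norm_add_le (∫ x in (1 / (K : ℝ))..((K - 1) / K), ef K x)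
    (∫ x in ((K - 1) / (K : ℝ))..1, ef K x)
  have h6 : (2 : ℝ) / K = 1 / K + 1 / K := by ring
  linarith

theorem LocNull.zero : LocNull (fun _ => 0) := by
  intro ε hε
  refine ⟨0, fun L _ => ?_⟩
  filter_upwards with N
  simp only [avg, Finset.sum_const_zero, zero_div, norm_zero, ravg]
  exact hε.le

theorem LocNull.add {v w : ℕ → ℂ} (hv : LocNull v) (hw : LocNull w) :
    LocNull (fun n => v n + w n) := by
  intro ε hε
  obtain ⟨L1, h1⟩ := hv (ε / 2) (by positivity)
  obtain ⟨L2, h2⟩ := hw (ε / 2) (by positivity)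
  refine ⟨max L1 L2, fun L hL => ?_⟩
  filter_upwards [h1 L ((le_max_left _ _).trans hL), h2 L ((le_max_right _ _).trans hL)] with N h3 h4
  refine (ravg_mono N _ (fun n => ‖avg L (fun u => v (n + u))‖ + ‖avg L (fun u => w (n + u))‖)
    fun n => ?_).trans ?_
  · rw [avg_add]; exact norm_add_le _ _
  · rw [ravg_add]; linarith

theorem LocNull.sum {ι : Type*} (s : Finset ι) (v : ι → ℕ → ℂ) (hv : ∀ i ∈ s, LocNull (v i)) :
    LocNull (fun n => ∑ i ∈ s, v i n) := by
  classical
  induction s using Finset.induction_on with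
  | empty => simpa using LocNull.zero
  | insert a s ha ih =>
    simp only [Finset.sum_insert ha]
    exact LocNull.add (hv a (Finset.mem_insert_self _ _))
      (ih fun i hi => hv i (Finset.mem_insert_of_mem hi))

theorem locNull_prod_sum (J : Finset ℕ) (f : ℝ → ℕ → ℕ → ℂ) (B : Finset ℝ) : ∀ (z : ℕ → ℂ),
    (∀ C : ℝ → ℕ, (∀ b ∈ B, C b ∈ J) → LocNull (fun n => z n * ∏ b ∈ B, f b (C b) n)) →
    LocNull (fun n => z n * ∏ b ∈ B, ∑ j ∈ J, f b j n) := by
  classical
  induction B using Finset.induction_on with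
  | empty => intro z h; simpa using h (fun _ => 0) (by simp)
  | insert a s ha ih =>
    intro z h
    have h1 : ∀ j ∈ J, LocNull (fun n => (z n * f a j n) * ∏ b ∈ s, ∑ j ∈ J, f b j n) := by
      intro j hj
      refine ih _ fun C hC => ?_
      have h2 := h (Function.update C a j) (by
        intro b hb
        rcases Finset.mem_insert.mp hb with h0 | h0
        · rw [h0, Function.update_self]; exact hj
        · have hne : b ≠ a := fun h1 => ha (by rw [← h1]; exact h0)
          rw [Function.update_of_ne hne]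
          exact hC b h0)
      have h3 : (fun n => z n * ∏ b ∈ insert a s, f b (Function.update C a j b) n) =
          fun n => z n * f a j n * ∏ b ∈ s, f b (C b) n := by
        funext n
        rw [Finset.prod_insert ha, Function.update_self, mul_assoc]
        congr 2
        refine Finset.prod_congr rfl fun b hb => ?_
        rw [Function.update_of_ne (by rintro rfl; exact ha hb)]
      rwa [h3] at h2
    have h2 := LocNull.sum J _ h1
    have h3 : (fun n => ∑ j ∈ J, (z n * f a j n) * ∏ b ∈ s, ∑ j ∈ J, f b j n) =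
        fun n => z n * ∏ b ∈ insert a s, ∑ j ∈ J, f b j n := by
      funext n
      rw [Finset.prod_insert ha, ← Finset.sum_mul, ← Finset.mul_sum]
      ring
    rwa [h3] at h2

theorem prod_sub_prod_le {ι : Type*} (s : Finset ι) (a a' : ι → ℂ) (ha : ∀ i ∈ s, ‖a i‖ ≤ 1)
    (ha' : ∀ i ∈ s, ‖a' i‖ ≤ 1) : ‖∏ i ∈ s, a i - ∏ i ∈ s, a' i‖ ≤ ∑ i ∈ s, ‖a i - a' i‖ := by
  classical
  induction s using Finset.induction_on with
  | empty => simp
  | insert b s hb ih =>
    rw [Finset.prod_insert hb, Finset.prod_insert hb, Finset.sum_insert hb]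
    have h1 := ih (fun i hi => ha i (Finset.mem_insert_of_mem hi))
      (fun i hi => ha' i (Finset.mem_insert_of_mem hi))
    have e1 : a b * ∏ i ∈ s, a i - a' b * ∏ i ∈ s, a' i =
        (a b - a' b) * ∏ i ∈ s, a i + a' b * (∏ i ∈ s, a i - ∏ i ∈ s, a' i) := by ring
    rw [e1]
    refine (norm_add_le _ _).trans ?_
    rw [norm_mul, norm_mul]
    have h2 : ‖∏ i ∈ s, a i‖ ≤ 1 := by
      rw [norm_prod]
      exact Finset.prod_le_one (fun _ _ => norm_nonneg _)
        fun i hi => ha i (Finset.mem_insert_of_mem hi)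
    have h3 : ‖a b - a' b‖ * ‖∏ i ∈ s, a i‖ ≤ ‖a b - a' b‖ * 1 :=
      mul_le_mul_of_nonneg_left h2 (norm_nonneg _)
    have h4 : ‖a' b‖ * ‖∏ i ∈ s, a i - ∏ i ∈ s, a' i‖ ≤ 1 * ‖∏ i ∈ s, a i - ∏ i ∈ s, a' i‖ :=
      mul_le_mul_of_nonneg_right (ha' b (Finset.mem_insert_self _ _)) (norm_nonneg _)
    linarith

/-- the iteration of the van der Corput inequality -/
theorem iterate_vdc (v : ℕ → ℂ) (hv : ∀ n, ‖v n‖ ≤ 1) (D : ℕ) (hD : 1 ≤ D)
    (h : ∀ l : List ℕ, l.length = D → (∀ k ∈ l, 1 ≤ k) →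
      Tendsto (fun N => avg N (dvs l v)) atTop (𝓝 0)) : LocNull v := by
  have key : ∀ j : ℕ, ∀ k : ℕ, k + j = D → 1 ≤ k → ∀ l : List ℕ, l.length = k →
      (∀ k ∈ l, 1 ≤ k) → Tendsto (fun N => avg N (dvs l v)) atTop (𝓝 0) := by
    intro j
    induction j with
    | zero => intro k hk _ l hl hl1; exact h l (by omega) hl1
    | succ j ih =>
      intro k hk hk1 l hl hl1
      refine avg_tendsto_of_locNull _ (dvs_norm_le l v hv) ?_
      refine locNull_of_vdc _ (dvs_norm_le l v hv) fun m hm => ?_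
      refine ih (k + 1) (by omega) (by omega) (m :: l) (by simp [hl]) ?_
      intro x hx
      rcases List.mem_cons.mp hx with rfl | hx
      · exact hm
      · exact hl1 x hx
  refine locNull_of_vdc v hv fun m hm => ?_
  exact key (D - 1) 1 (by omega) le_rfl [m] rfl (by simpa using hm)

theorem locNull_cell (HT : TaylorHyp) (HS : SlowHyp) (HF : FastHyp) (B : Finset ℝ)
    (hB : ∀ b ∈ B, PosNonInt b ∧ 1 < b) (t : ℝ → ℝ) (ht : ∀ b ∈ B, Irrational (t b)) (c : ℝ)
    (hc : c ∈ B) (hmax : ∀ b ∈ B, b ≤ c) (K : ℕ)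
    (hK : (2 : ℝ) ^ (2 * ⌊c⌋₊) * (2 / K) ≤ 1 / 8) (hK1 : 1 ≤ K) (C : ℝ → ℕ)
    (hC : ∀ b ∈ B, C b ∈ range (K - 1)) :
    LocNull (fun n => ∏ b ∈ B, (e (t b * (sq b n : ℝ)) * tf K (C b) ((n : ℝ) ^ b))) := by
  classical
  have hKr : (0 : ℝ) < K := by exact_mod_cast hK1
  have hfl : 1 ≤ ⌊c⌋₊ := Nat.le_floor (by exact_mod_cast (hB c hc).2.le)
  refine iterate_vdc _ (fun n => ?_) (2 * ⌊c⌋₊) (by omega) fun l hl hpos => ?_
  · rw [norm_prod]
    refine Finset.prod_le_one (fun _ _ => norm_nonneg _) fun b _ => ?_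
    rw [norm_mul, norm_e, one_mul]
    exact tf_le _ _ _
  · set Λ : ℕ → ℂ := fun n => ∏ b ∈ B, e (t b * (Qf b l n : ℤ)) with hΛ
    have hΛ1 : ∀ n, ‖Λ n‖ = 1 := fun n => by
      simp only [hΛ]
      rw [norm_prod]; exact Finset.prod_eq_one fun b _ => norm_e _
    have hG1 : Good B Λ (fun _ => 1) := by
      rintro ψ ⟨κ, c₀, hψ⟩
      have h1 := expsum HS HF B (fun b hb => (hB b hb).1) t ht c hc hmax l hl hpos (Ts B)
        (fun τ hτ => mem_Ts (fun b hb => (hB b hb).1) τ hτ) κ ψ c₀ hψ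
      refine h1.congr fun N => ?_
      congr 1
      funext n
      rw [one_mul]
    have hG := good_prod HT B (fun b hb => (hB b hb).1) Λ hΛ1 l hG1 (fun b => tf K (C b))
      (fun b hb => tf_cont K (C b) (by have := mem_range.mp (hC b hb); omega))
      (fun b _ => tf_per K (C b)) (fun b _ => tf_le K (C b)) B (Finset.Subset.refl B)
      (fun _ => 0) (isFam_zero B)
    refine tendsto_avg_of_approx _ fun ε hε => ⟨_, ?_, hG⟩
    have hev : ∀ᶠ n : ℕ in atTop, ∀ b ∈ B, dvs l (fun m => e (t b * (sq b m : ℝ))) n *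
        dvs l (fun m => tf K (C b) ((m : ℝ) ^ b)) n =
        e (t b * (Qf b l n : ℤ)) * dvs l (fun m => tf K (C b) ((m : ℝ) ^ b)) n := by
      rw [eventually_all_finset]
      intro b hb
      filter_upwards [sq_formula HT b (hB b hb).1 (hB b hb).2 l ⌊c⌋₊
        (Nat.floor_mono (hmax b hb)) hl] with n hn
      by_cases h0 : dvs l (fun m => tf K (C b) ((m : ℝ) ^ b)) n = 0
      · rw [h0, mul_zero, mul_zero]
      · congr 1
        have h1 := allv_of_dvs_ne_zero l _ n h0
        have h2 := allv_mono l _ (fun m => |((⌊(m : ℝ) ^ b⌋₊ : ℕ) : ℝ) -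
          ((m : ℝ) ^ b - (C b : ℝ) / K)| ≤ 2 / K) (fun m hm => by
            have h3 : tn K (C b) (Int.fract ((m : ℝ) ^ b)) ≠ 0 := by
              intro h4
              apply hm
              simp only [tf, h4, Complex.ofReal_zero]
            obtain ⟨h4, h5⟩ := tn_support _ _ _ h3
            have h6 : ((⌊(m : ℝ) ^ b⌋₊ : ℕ) : ℝ) = (m : ℝ) ^ b - Int.fract ((m : ℝ) ^ b) := by
              rw [natCast_floor_eq_intCast_floor (by positivity)]
              rw [Int.self_sub_fract]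
            rw [h6]
            have e1 : (m : ℝ) ^ b - Int.fract ((m : ℝ) ^ b) - ((m : ℝ) ^ b - (C b : ℝ) / K) =
              ((C b : ℝ) - K * Int.fract ((m : ℝ) ^ b)) / K := by field_simp; ring
            rw [e1, abs_div, abs_of_pos hKr]
            refine div_le_div_of_nonneg_right ?_ hKr.le
            rw [abs_le]
            constructor <;> linarith) n h1
        have h3 := hn ((C b : ℝ) / K) (2 / K) (by positivity) (by rw [hl]; exact hK) h2
        rw [dvs_e l (fun m => t b * (sq b m : ℝ)), dfs_mul_left, ← h3, dfs_cast]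
    filter_upwards [hev] with n hn
    have h1 : dvs l (fun n => ∏ b ∈ B, (e (t b * (sq b n : ℝ)) * tf K (C b) ((n : ℝ) ^ b))) n =
        (∏ b ∈ B, dvs l (fun m => tf K (C b) ((m : ℝ) ^ b)) n) * (e 0 * Λ n) := by
      rw [dvs_prod, e_zero, one_mul]
      simp only [hΛ]
      rw [← Finset.prod_mul_distrib]
      refine Finset.prod_congr rfl fun b hb => ?_
      rw [dvs_mul, hn b hb, mul_comm]
    rw [h1, sub_self, norm_zero]
    exact hε.le

theorem ravg_window (x : ℕ → ℝ) (hx : ∀ n, 0 ≤ x n) (hx1 : ∀ n, x n ≤ 1) (L N : ℕ) (hL : 1 ≤ L)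
    (hN : 1 ≤ N) : ravg N (fun n => ravg L (fun u => x (n + u))) ≤ ravg N x + 2 * L / N := by
  have hLr : (0 : ℝ) < L := by exact_mod_cast hL
  have hNr : (0 : ℝ) < N := by exact_mod_cast hN
  have h1 : ravg N (fun n => ravg L (fun u => x (n + u))) =
      ravg L (fun u => ravg N (fun n => x (n + u))) := by
    simp only [ravg]
    rw [← Finset.sum_div, ← Finset.sum_div, Finset.sum_comm, div_div, div_div, mul_comm]
  rw [h1]
  have h2 : ∀ u ∈ range L, ravg N (fun n => x (n + u)) ≤ ravg N x + 2 * L / N := by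
    intro u hu
    rw [mem_range] at hu
    have h3 := shift_sum (fun n => (x n : ℂ)) (fun n => by
      rw [Complex.norm_real, Real.norm_eq_abs, abs_of_nonneg (hx n)]; exact hx1 n) N u
    have h4 : ∑ n ∈ range N, ((x (n + u) : ℝ) : ℂ) - ∑ n ∈ range N, ((x n : ℝ) : ℂ) =
        ((∑ n ∈ range N, x (n + u) - ∑ n ∈ range N, x n : ℝ) : ℂ) := by push_cast; rfl
    rw [h4, Complex.norm_real, Real.norm_eq_abs] at h3
    have h5 := (abs_le.mp h3).2
    have h6 : (u : ℝ) ≤ L := by exact_mod_cast hu.le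
    simp only [ravg]
    rw [← add_div]
    refine div_le_div_of_nonneg_right ?_ hNr.le
    linarith
  have h3 : ravg L (fun u => ravg N (fun n => x (n + u))) ≤
      (∑ u ∈ range L, (ravg N x + 2 * L / N)) / L :=
    div_le_div_of_nonneg_right (Finset.sum_le_sum h2) hLr.le
  refine h3.trans (le_of_eq ?_)
  simp only [Finset.sum_const, card_range, nsmul_eq_mul]
  field_simp

theorem p0loc_irr (HT : TaylorHyp) (HS : SlowHyp) (HF : FastHyp) (HE : EquiHyp) (B : Finset ℝ)
    (hB : ∀ b ∈ B, PosNonInt b ∧ 1 < b) (hne : B.Nonempty) (t : ℝ → ℝ)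
    (ht : ∀ b ∈ B, Irrational (t b)) (ε : ℝ) (hε : 0 < ε) :
    ∃ L : ℕ, 1 ≤ L ∧ ∀ᶠ N : ℕ in atTop,
      ravg N (fun n => ‖avg L (fun u => ∏ b ∈ B, e (t b * (sq b (n + u) : ℝ)))‖) ≤ ε := by
  classical
  obtain ⟨c, hc, hmax⟩ := Finset.exists_max_image B id hne
  simp only [id] at hmax
  -- the number of cells
  obtain ⟨K0, hK0⟩ := exists_nat_gt (max (2 ^ (2 * ⌊c⌋₊) * 16) (12 * (B.card + 1) / ε))
  set K := max K0 2 with hKdef
  have hK2 : 2 ≤ K := le_max_right _ _
  have hKr : (0 : ℝ) < K := by exact_mod_cast (by omega : 0 < K)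
  have hK0K : (K0 : ℝ) ≤ K := by exact_mod_cast le_max_left _ _
  have hKa : (2 : ℝ) ^ (2 * ⌊c⌋₊) * (2 / K) ≤ 1 / 8 := by
    have := ((le_max_left _ _).trans_lt hK0).trans_le hK0K
    rw [← mul_div_assoc, div_le_iff₀ hKr]
    linarith
  have hKb : (B.card : ℝ) * (3 / K) ≤ ε / 4 := by
    have := ((le_max_right _ _).trans_lt hK0).trans_le hK0K
    rw [div_lt_iff₀ hε] at this
    rw [← mul_div_assoc, div_le_iff₀ hKr]
    have h1 : (0 : ℝ) ≤ B.card := Nat.cast_nonneg _
    linarith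
  -- the decomposition
  set w : ℕ → ℂ := fun n => ∏ b ∈ B, e (t b * (sq b n : ℝ)) with hw
  set w' : ℕ → ℂ := fun n => ∏ b ∈ B, ∑ j ∈ range (K - 1),
    (e (t b * (sq b n : ℝ)) * tf K j ((n : ℝ) ^ b)) with hw'
  have hw'null : LocNull w' := by
    have h1 := locNull_prod_sum (range (K - 1))
      (fun b j n => e (t b * (sq b n : ℝ)) * tf K j ((n : ℝ) ^ b)) B (fun _ => 1)
      (fun C hC => by
        simp only [one_mul]
        exact locNull_cell HT HS HF B hB t ht c hc hmax K hKa (by omega) C hC)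
    simpa only [one_mul] using h1
  have hfac : ∀ b ∈ B, ∀ n : ℕ, ∑ j ∈ range (K - 1),
      (e (t b * (sq b n : ℝ)) * tf K j ((n : ℝ) ^ b)) =
      e (t b * (sq b n : ℝ)) * ((1 - eta K (Int.fract ((n : ℝ) ^ b)) : ℝ) : ℂ) := by
    intro b _ n
    rw [← Finset.mul_sum, ← sum_tn K (by omega)]
    simp only [tf]
    push_cast
    rfl
  have hdiff : ∀ n, ‖w n - w' n‖ ≤ ∑ b ∈ B, eta K (Int.fract ((n : ℝ) ^ b)) := by
    intro n
    refine (prod_sub_prod_le B _ _ (fun _ _ => (norm_e _).le) fun b hb => ?_).trans ?_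
    · rw [hfac b hb n, norm_mul, norm_e, one_mul, Complex.norm_real, Real.norm_eq_abs]
      have h1 := eta_nonneg K (Int.fract ((n : ℝ) ^ b))
      have h2 := eta_le_one K (by omega) (Int.fract ((n : ℝ) ^ b))
      rw [abs_le]
      constructor <;> linarith
    · refine Finset.sum_le_sum fun b hb => ?_
      rw [hfac b hb n]
      have e1 : e (t b * (sq b n : ℝ)) - e (t b * (sq b n : ℝ)) *
          ((1 - eta K (Int.fract ((n : ℝ) ^ b)) : ℝ) : ℂ) =
          e (t b * (sq b n : ℝ)) * ((eta K (Int.fract ((n : ℝ) ^ b)) : ℝ) : ℂ) := by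
        push_cast; ring
      rw [e1, norm_mul, norm_e, one_mul, Complex.norm_real, Real.norm_eq_abs,
        abs_of_nonneg (eta_nonneg _ _)]
  obtain ⟨L0, hL0⟩ := hw'null (ε / 2) (by positivity)
  set L := max L0 1 with hL
  have hL1 : 1 ≤ L := le_max_right _ _
  refine ⟨L, hL1, ?_⟩
  have hequi : ∀ᶠ N : ℕ in atTop, ∀ b ∈ B,
      ravg N (fun n => eta K (Int.fract ((n : ℝ) ^ b))) ≤ 3 / K := by
    rw [eventually_all_finset]
    intro b hb
    have h1 := (HE b (hB b hb).1 (ef K) (ef_cont K (by omega)) (ef_per K)).norm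
    have h2 : ‖∫ x in (0:ℝ)..1, ef K x‖ < 3 / K :=
      (ef_integral K hK2).trans_lt (div_lt_div_of_pos_right (by norm_num) hKr)
    filter_upwards [h1.eventually_lt_const h2] with N hN
    refine le_trans (le_of_eq ?_) hN.le
    have h3 : avg N (fun n : ℕ => ef K ((n : ℝ) ^ b)) =
        ((ravg N (fun n => eta K (Int.fract ((n : ℝ) ^ b))) : ℝ) : ℂ) := by
      simp only [avg, ravg, ef]
      push_cast
      rfl
    rw [h3, Complex.norm_real, Real.norm_eq_abs,
      abs_of_nonneg (ravg_nonneg _ _ fun n => eta_nonneg _ _)]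
  have hsmall : ∀ᶠ N : ℕ in atTop, (B.card : ℝ) * (2 * L / N) ≤ ε / 4 := by
    have h1 : Tendsto (fun N : ℕ => (B.card : ℝ) * (2 * L / N)) atTop (𝓝 ((B.card : ℝ) * 0)) :=
      (tendsto_const_div_atTop_nhds_zero_nat (2 * (L : ℝ))).const_mul _
    rw [mul_zero] at h1
    filter_upwards [h1.eventually_lt_const (show (0:ℝ) < ε / 4 by positivity)] with N hN
    exact hN.le
  filter_upwards [hL0 L (le_max_left _ _), hequi, hsmall, eventually_ge_atTop 1] with N h1 h2 h3 hN1
  have h4 : ravg N (fun n => ‖avg L (fun u => w (n + u))‖) ≤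
      ravg N (fun n => ‖avg L (fun u => w' (n + u))‖ +
        ∑ b ∈ B, ravg L (fun u => eta K (Int.fract (((n + u : ℕ) : ℝ) ^ b)))) := by
    refine ravg_mono N _ _ fun n => ?_
    have e1 : avg L (fun u => w (n + u)) = avg L (fun u => w' (n + u)) +
        avg L (fun u => w (n + u) - w' (n + u)) := by rw [avg_sub]; ring
    rw [e1]
    refine (norm_add_le _ _).trans (add_le_add le_rfl ?_)
    refine (norm_avg_le _ _).trans ?_
    refine (ravg_mono L _ _ fun u => hdiff (n + u)).trans (le_of_eq ?_)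
    rw [ravg_sum]
  refine h4.trans ?_
  rw [ravg_add, ravg_sum]
  have h5 : ∑ b ∈ B, ravg N (fun n => ravg L (fun u =>
      eta K (Int.fract (((n + u : ℕ) : ℝ) ^ b)))) ≤ ∑ b ∈ B, (3 / (K : ℝ) + 2 * L / N) := by
    refine Finset.sum_le_sum fun b hb => ?_
    refine (ravg_window (fun n => eta K (Int.fract ((n : ℝ) ^ b))) (fun n => eta_nonneg _ _)
      (fun n => eta_le_one K (by omega) _) L N hL1 hN1).trans ?_
    linarith [h2 b hb]
  rw [Finset.sum_const, nsmul_eq_mul, mul_add] at h5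
  linarith

/-- Block T11, from the statements of T3, T4, T5b, T5c. -/
theorem p0loc_of (HT : TaylorHyp) (HS : SlowHyp) (HF : FastHyp) (HE : EquiHyp) (B : Finset ℝ)
    (hB : ∀ b ∈ B, PosNonInt b ∧ 1 < b) (t : ℝ → ℝ) (ht : ∀ b ∈ B, IrrOrInt (t b))
    (hirr : ∃ b ∈ B, Irrational (t b)) (ε : ℝ) (hε : 0 < ε) :
    ∃ L : ℕ, 1 ≤ L ∧ ∀ᶠ N : ℕ in atTop,
      ravg N (fun n => ‖avg L (fun u => ∏ b ∈ B, e (t b * (sq b (n + u) : ℝ)))‖) ≤ ε := by
  classical
  set B0 := B.filter (fun b => Irrational (t b)) with hB0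
  obtain ⟨L, hL1, hL⟩ := p0loc_irr HT HS HF HE B0
    (fun b hb => hB b (Finset.mem_filter.mp hb).1)
    (by obtain ⟨b, h1, h2⟩ := hirr; exact ⟨b, Finset.mem_filter.mpr ⟨h1, h2⟩⟩) t
    (fun b hb => (Finset.mem_filter.mp hb).2) ε hε
  refine ⟨L, hL1, ?_⟩
  have h1 : ∀ m : ℕ, ∏ b ∈ B, e (t b * (sq b m : ℝ)) = ∏ b ∈ B0, e (t b * (sq b m : ℝ)) := by
    intro m
    rw [hB0, Finset.prod_filter]
    refine Finset.prod_congr rfl fun b hb => ?_
    split_ifs with h
    · rfl
    · rcases ht b hb with h2 | ⟨k, hk⟩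
      · exact absurd h2 h
      · rw [hk]
        have h3 : ((k : ℝ) * (sq b m : ℝ)) = ((k * sq b m : ℤ) : ℝ) := by push_cast; ring
        rw [h3, e_int]
  simp only [h1]
  exact hL

end Pool.Agent.JE.H44
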