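import Pool.Agent.Helper44.JE.Diff

/-!
MP_ce5406_an, block T11: integer parts of fractional powers on cubes inside a cell.
-/

open Filter Topology Finset
open scoped BigOperators ComplexConjugate

namespace Pool.Agent.JE.H44

/-- The statement of block T3. -/
def TaylorHyp : Prop := ∀ (c : ℝ), PosNonInt c → ∀ (W : ℕ) (ε : ℝ), 0 < ε →
    ∀ᶠ n : ℕ in atTop, ∀ u ≤ W, |((n + u : ℕ) : ℝ) ^ c -
      ∑ j ∈ range (⌊c⌋₊ + 1), (∏ i ∈ range j, (c - i)) / (j.factorial : ℝ) *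
        (n : ℝ) ^ (c - j) * (u : ℝ) ^ j| ≤ ε

theorem eventually_list {α : Type*} (L : List α) (P : α → ℕ → Prop)
    (h : ∀ x ∈ L, ∀ᶠ n : ℕ in atTop, P x n) : ∀ᶠ n : ℕ in atTop, ∀ x ∈ L, P x n := by
  induction L with
  | nil => simp
  | cons a L ih =>
    have h1 := h a (by simp)
    have h2 := ih fun x hx => h x (by simp [hx])
    filter_upwards [h1, h2] with n h3 h4
    intro x hx
    rcases List.mem_cons.mp hx with rfl | hx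
    · exact h3
    · exact h4 x hx

/-- The rounded leading difference. -/
noncomputable def Rf (b : ℝ) (I : List ℕ) (n : ℕ) : ℤ :=
  round (((⌊b⌋₊.factorial * I.prod : ℕ) : ℝ) * (lead b * (n : ℝ) ^ (b - ⌊b⌋₊)))

/-- The quadratic phase. -/
noncomputable def Qf (b : ℝ) (l : List ℕ) (n : ℕ) : ℤ :=
  ((prs l).map (fun p => if p.1.length = ⌊b⌋₊ ∧ p.2.length = ⌊b⌋₊ then
    Rf b p.1 n * Rf b p.2 n else 0)).sum

theorem dfs_pow_lim (HT : TaylorHyp) (b : ℝ) (hb : PosNonInt b) (I : List ℕ) (ε : ℝ)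
    (hε : 0 < ε) : ∀ᶠ n : ℕ in atTop,
      (⌊b⌋₊ < I.length → |dfs I (fun m => (m : ℝ) ^ b) n| ≤ ε) ∧
      (I.length = ⌊b⌋₊ → |dfs I (fun m => (m : ℝ) ^ b) n -
        ((⌊b⌋₊.factorial * I.prod : ℕ) : ℝ) * (lead b * (n : ℝ) ^ (b - ⌊b⌋₊))| ≤ ε) := by
  have h1 := HT b hb I.sum (ε / 2 ^ I.length) (by positivity)
  filter_upwards [h1] with n hn
  set p : ℕ → ℝ := fun u => ∑ j ∈ range (⌊b⌋₊ + 1), (∏ i ∈ range j, (b - i)) / (j.factorial : ℝ) *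
        (n : ℝ) ^ (b - j) * (u : ℝ) ^ j with hp
  have h2 : |dfs I (fun m => (m : ℝ) ^ b) n - dfs I p 0| ≤ ε := by
    have h3 : dfs I (fun m => (m : ℝ) ^ b) n = dfs I (fun u => ((n + u : ℕ) : ℝ) ^ b) 0 := by
      rw [dfs_shift I (fun m => (m : ℝ) ^ b) n 0, add_zero]
    rw [h3, ← dfs_sub]
    have h4 := dfs_bound I (fun u => ((n + u : ℕ) : ℝ) ^ b - p u) (ε / 2 ^ I.length) 0
      (allv_of_le I _ 0 fun m hm => hn m (by omega))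
    have h5 : (2 : ℝ) ^ I.length * (ε / 2 ^ I.length) = ε := by field_simp
    rwa [h5] at h4
  have h3 : dfs I p 0 = ∑ j ∈ range (⌊b⌋₊ + 1), (∏ i ∈ range j, (b - i)) / (j.factorial : ℝ) *
        (n : ℝ) ^ (b - j) * dfs I (fun u => (u : ℝ) ^ j) 0 := by
    rw [hp, dfs_sum]
    refine Finset.sum_congr rfl fun j _ => ?_
    rw [dfs_mul_left]
  obtain ⟨h4, h5⟩ := dfs_pow I
  refine ⟨fun hI => ?_, fun hI => ?_⟩
  · have h6 : dfs I p 0 = 0 := by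
      rw [h3]
      refine Finset.sum_eq_zero fun j hj => ?_
      rw [mem_range] at hj
      rw [h4 j (by omega), mul_zero]
    rwa [h6, sub_zero] at h2
  · have h6 : dfs I p 0 = ((⌊b⌋₊.factorial * I.prod : ℕ) : ℝ) * (lead b * (n : ℝ) ^ (b - ⌊b⌋₊)) := by
      rw [h3, Finset.sum_range_succ, Finset.sum_eq_zero, zero_add]
      · rw [← hI, h5, hI]
        simp only [lead]
        push_cast
        ring
      · intro j hj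
        rw [mem_range] at hj
        rw [h4 j (by omega), mul_zero]
    rwa [h6] at h2

theorem int_eq_round (z : ℤ) (x : ℝ) (h : |(z : ℝ) - x| < 1 / 2) : z = round x := by
  have h1 := abs_sub_round x
  have h2 : |(z : ℝ) - (round x : ℤ)| < 1 := by
    have h3 : (z : ℝ) - (round x : ℤ) = (z - x) + (x - (round x : ℤ)) := by ring
    rw [h3]
    exact (abs_add_le _ _).trans_lt (by linarith)
  have h4 : |z - round x| < 1 := by exact_mod_cast h2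
  have h5 := Int.abs_lt_one_iff.mp h4
  omega

theorem cell (HT : TaylorHyp) (b : ℝ) (hb : PosNonInt b) (hb1 : 1 < b) (l I : List ℕ)
    (hI : List.Sublist I l) : ∀ᶠ n : ℕ in atTop, ∀ x₀ δ : ℝ, 0 ≤ δ → 2 ^ l.length * δ ≤ 1 / 8 →
      allv l (fun m => |((⌊(m : ℝ) ^ b⌋₊ : ℕ) : ℝ) - ((m : ℝ) ^ b - x₀)| ≤ δ) n →
      (⌊b⌋₊ < I.length → dfs I (fun m => ((⌊(m : ℝ) ^ b⌋₊ : ℕ) : ℤ)) n = 0) ∧
      (I.length = ⌊b⌋₊ → dfs I (fun m => ((⌊(m : ℝ) ^ b⌋₊ : ℕ) : ℤ)) n = Rf b I n) := by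
  filter_upwards [dfs_pow_lim HT b hb I (1 / 8) (by norm_num)] with n hn
  intro x₀ δ hδ0 hδ hall
  have hfl : 1 ≤ ⌊b⌋₊ := Nat.le_floor (by exact_mod_cast hb1.le)
  have key : I ≠ [] → |((dfs I (fun m => ((⌊(m : ℝ) ^ b⌋₊ : ℕ) : ℤ)) n : ℤ) : ℝ) -
      dfs I (fun m => (m : ℝ) ^ b) n| ≤ 1 / 8 := by
    intro hne
    rw [dfs_cast, ← dfs_sub]
    have h1 := dfs_bound I (fun m => (((⌊(m : ℝ) ^ b⌋₊ : ℕ) : ℤ) : ℝ) - (m : ℝ) ^ b - (-x₀)) δ n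
      (allv_mono _ _ _ (fun m hm => by
        have e1 : (((⌊(m : ℝ) ^ b⌋₊ : ℕ) : ℤ) : ℝ) - (m : ℝ) ^ b - (-x₀) =
          ((⌊(m : ℝ) ^ b⌋₊ : ℕ) : ℝ) - ((m : ℝ) ^ b - x₀) := by push_cast; ring
        rw [e1]; exact hm) n (allv_sublist hI _ n hall))
    rw [dfs_sub I (fun m => (((⌊(m : ℝ) ^ b⌋₊ : ℕ) : ℤ) : ℝ) - (m : ℝ) ^ b) (fun _ => -x₀),
      dfs_const I hne, sub_zero] at h1
    have h2 : (2 : ℝ) ^ I.length * δ ≤ 2 ^ l.length * δ :=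
      mul_le_mul_of_nonneg_right (pow_le_pow_right₀ (by norm_num) hI.length_le) hδ0
    linarith
  refine ⟨fun hlen => ?_, fun hlen => ?_⟩
  · have hne : I ≠ [] := by
      rintro rfl; simp at hlen
    have h1 := key hne
    have h2 := hn.1 hlen
    have h3 : |((dfs I (fun m => ((⌊(m : ℝ) ^ b⌋₊ : ℕ) : ℤ)) n : ℤ) : ℝ) - 0| < 1 / 2 := by
      have e1 : ((dfs I (fun m => ((⌊(m : ℝ) ^ b⌋₊ : ℕ) : ℤ)) n : ℤ) : ℝ) - 0 =
        (((dfs I (fun m => ((⌊(m : ℝ) ^ b⌋₊ : ℕ) : ℤ)) n : ℤ) : ℝ) -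
          dfs I (fun m => (m : ℝ) ^ b) n) + dfs I (fun m => (m : ℝ) ^ b) n := by ring
      rw [e1]
      exact (abs_add_le _ _).trans_lt (by linarith)
    have h4 := int_eq_round _ _ h3
    rw [h4, round_zero]
  · have hne : I ≠ [] := by
      rintro rfl; simp at hlen; omega
    have h1 := key hne
    have h2 := hn.2 hlen
    refine int_eq_round _ _ ?_
    set T := ((⌊b⌋₊.factorial * I.prod : ℕ) : ℝ) * (lead b * (n : ℝ) ^ (b - ⌊b⌋₊))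
    have e1 : ((dfs I (fun m => ((⌊(m : ℝ) ^ b⌋₊ : ℕ) : ℤ)) n : ℤ) : ℝ) - T =
        (((dfs I (fun m => ((⌊(m : ℝ) ^ b⌋₊ : ℕ) : ℤ)) n : ℤ) : ℝ) -
          dfs I (fun m => (m : ℝ) ^ b) n) + (dfs I (fun m => (m : ℝ) ^ b) n - T) := by ring
    rw [e1]
    exact (abs_add_le _ _).trans_lt (by linarith)

theorem sq_formula (HT : TaylorHyp) (b : ℝ) (hb : PosNonInt b) (hb1 : 1 < b) (l : List ℕ) (d : ℕ)
    (hd : ⌊b⌋₊ ≤ d) (hl : l.length = 2 * d) : ∀ᶠ n : ℕ in atTop, ∀ x₀ δ : ℝ, 0 ≤ δ →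
      2 ^ l.length * δ ≤ 1 / 8 →
      allv l (fun m => |((⌊(m : ℝ) ^ b⌋₊ : ℕ) : ℝ) - ((m : ℝ) ^ b - x₀)| ≤ δ) n →
      dfs l (fun m => sq b m) n = Qf b l n := by
  have h1 := eventually_list (prs l) (fun p n => ∀ x₀ δ : ℝ, 0 ≤ δ → 2 ^ l.length * δ ≤ 1 / 8 →
      allv l (fun m => |((⌊(m : ℝ) ^ b⌋₊ : ℕ) : ℝ) - ((m : ℝ) ^ b - x₀)| ≤ δ) n →
      (⌊b⌋₊ < p.1.length → dfs p.1 (fun m => ((⌊(m : ℝ) ^ b⌋₊ : ℕ) : ℤ)) n = 0) ∧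
      (p.1.length = ⌊b⌋₊ → dfs p.1 (fun m => ((⌊(m : ℝ) ^ b⌋₊ : ℕ) : ℤ)) n = Rf b p.1 n))
    fun p hp => cell HT b hb hb1 l p.1 (mem_prs hp).1
  have h2 := eventually_list (prs l) (fun p n => ∀ x₀ δ : ℝ, 0 ≤ δ → 2 ^ l.length * δ ≤ 1 / 8 →
      allv l (fun m => |((⌊(m : ℝ) ^ b⌋₊ : ℕ) : ℝ) - ((m : ℝ) ^ b - x₀)| ≤ δ) n →
      (⌊b⌋₊ < p.2.length → dfs p.2 (fun m => ((⌊(m : ℝ) ^ b⌋₊ : ℕ) : ℤ)) n = 0) ∧
      (p.2.length = ⌊b⌋₊ → dfs p.2 (fun m => ((⌊(m : ℝ) ^ b⌋₊ : ℕ) : ℤ)) n = Rf b p.2 n))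
    fun p hp => cell HT b hb hb1 l p.2 (mem_prs hp).2.1
  filter_upwards [h1, h2] with n h1 h2
  intro x₀ δ hδ0 hδ hall
  have h3 : (fun m => sq b m) = fun m : ℕ => ((⌊(m : ℝ) ^ b⌋₊ : ℕ) : ℤ) * ((⌊(m : ℝ) ^ b⌋₊ : ℕ) : ℤ) := by
    funext m; simp only [sq, pow_two]
  rw [h3, dfs_mul]
  simp only [Qf]
  congr 1
  refine List.map_congr_left fun p hp => ?_
  obtain ⟨h4, h5⟩ := h1 p hp x₀ δ hδ0 hδ hall
  obtain ⟨h6, h7⟩ := h2 p hp x₀ δ hδ0 hδ hall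
  obtain ⟨-, -, h8⟩ := mem_prs hp
  split_ifs with hc
  · rw [h5 hc.1, h7 hc.2]
  · rcases lt_or_ge ⌊b⌋₊ p.1.length with h9 | h9
    · rw [h4 h9, zero_mul]
    · rcases lt_or_ge ⌊b⌋₊ p.2.length with h10 | h10
      · rw [h6 h10, mul_zero]
      · exfalso
        apply hc
        omega

end Pool.Agent.JE.H44
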