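import Pool.Agent.Helper44.JE.Vdc

/-!
MP_ce5406_an, block T11: iterated differences along lists of steps.
-/

open Filter Topology Finset
open scoped BigOperators ComplexConjugate

namespace Pool.Agent.JE.H44

/-- iterated additive differences -/
def dfs {α : Type*} [AddCommGroup α] : List ℕ → (ℕ → α) → ℕ → α
  | [], θ => θ
  | h :: l, θ => fun n => dfs l θ (n + h) - dfs l θ n

/-- iterated multiplicative differences -/
noncomputable def dvs : List ℕ → (ℕ → ℂ) → ℕ → ℂ
  | [], v => v
  | h :: l, v => fun n => dvs l v (n + h) * conj (dvs l v n)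

/-- a property at all vertices of the cube -/
def allv : List ℕ → (ℕ → Prop) → ℕ → Prop
  | [], P => P
  | h :: l, P => fun n => allv l P (n + h) ∧ allv l P n

theorem e_add (x y : ℝ) : e (x + y) = e x * e y := by
  simp only [e]
  rw [← Complex.exp_add]
  congr 1
  push_cast
  ring

theorem e_neg (x : ℝ) : e (-x) = conj (e x) := by
  simp only [e]
  rw [← Complex.exp_conj]
  congr 1
  simp only [map_mul, Complex.conj_I, Complex.conj_ofReal, map_ofNat]
  push_cast
  ring

theorem e_sub (x y : ℝ) : e (x - y) = e x * conj (e y) := by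
  rw [sub_eq_add_neg, e_add, e_neg]

theorem norm_e (x : ℝ) : ‖e x‖ = 1 := by
  have : e x = Complex.exp ((2 * Real.pi * x : ℝ) * Complex.I) := by
    simp only [e]; push_cast; ring_nf
  rw [this, Complex.norm_exp_ofReal_mul_I]

theorem e_zero : e 0 = 1 := by simp [e]

theorem e_int (m : ℤ) : e m = 1 := by
  simp only [e]
  rw [show 2 * (Real.pi : ℂ) * ((m : ℝ) : ℂ) * Complex.I = m * (2 * Real.pi * Complex.I) by
    push_cast; ring]
  exact Complex.exp_int_mul_two_pi_mul_I m

theorem e_sum {ι : Type*} (s : Finset ι) (f : ι → ℝ) : e (∑ i ∈ s, f i) = ∏ i ∈ s, e (f i) := by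
  classical
  induction s using Finset.induction_on with
  | empty => simp [e_zero]
  | insert a s ha ih => rw [Finset.sum_insert ha, Finset.prod_insert ha, e_add, ih]

theorem e_add_int (x : ℝ) (m : ℤ) : e (x + m) = e x := by
  rw [e_add, e_int, mul_one]

theorem e_periodic : Function.Periodic e 1 := fun x => by
  have := e_add_int x 1
  simpa using this

theorem continuous_e : Continuous e := by
  unfold e
  fun_prop

/-- `e` is Lipschitz -/
theorem norm_e_sub_e (x y : ℝ) : ‖e x - e y‖ ≤ 2 * Real.pi * |x - y| := by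
  have h1 : e x - e y = e y * (e (x - y) - 1) := by
    rw [mul_sub, ← e_add, mul_one]; ring_nf
  rw [h1, norm_mul, norm_e, one_mul]
  have h2 : e (x - y) = Complex.exp (Complex.I * (2 * Real.pi * (x - y) : ℝ)) := by
    simp only [e]; push_cast; ring_nf
  rw [h2]
  refine (Real.norm_exp_I_mul_ofReal_sub_one_le).trans ?_
  rw [Real.norm_eq_abs, abs_mul, abs_of_pos (by positivity)]

theorem dvs_mul (l : List ℕ) (v w : ℕ → ℂ) (n : ℕ) :
    dvs l (fun m => v m * w m) n = dvs l v n * dvs l w n := by
  induction l generalizing n with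
  | nil => rfl
  | cons h l ih => simp only [dvs, ih, map_mul]; ring

theorem dvs_one (l : List ℕ) (n : ℕ) : dvs l (fun _ => 1) n = 1 := by
  induction l generalizing n with
  | nil => rfl
  | cons h l ih => simp only [dvs, ih, map_one, mul_one]

theorem dvs_prod {ι : Type*} (s : Finset ι) (l : List ℕ) (v : ι → ℕ → ℂ) (n : ℕ) :
    dvs l (fun m => ∏ i ∈ s, v i m) n = ∏ i ∈ s, dvs l (v i) n := by
  classical
  induction s using Finset.induction_on with
  | empty => simp [dvs_one]
  | insert a s ha ih =>
    simp only [Finset.prod_insert ha]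
    rw [dvs_mul, ih]

theorem dvs_conj (l : List ℕ) (v : ℕ → ℂ) (n : ℕ) :
    dvs l (fun m => conj (v m)) n = conj (dvs l v n) := by
  induction l generalizing n with
  | nil => rfl
  | cons h l ih => simp only [dvs, ih, map_mul]

theorem dvs_norm_le (l : List ℕ) (v : ℕ → ℂ) (hv : ∀ n, ‖v n‖ ≤ 1) (n : ℕ) : ‖dvs l v n‖ ≤ 1 := by
  induction l generalizing n with
  | nil => exact hv n
  | cons h l ih =>
    simp only [dvs, norm_mul, RCLike.norm_conj]
    exact mul_le_one₀ (ih _) (norm_nonneg _) (ih _)

theorem dvs_e (l : List ℕ) (θ : ℕ → ℝ) (n : ℕ) : dvs l (fun m => e (θ m)) n = e (dfs l θ n) := by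
  induction l generalizing n with
  | nil => rfl
  | cons h l ih => simp only [dvs, dfs, ih, e_sub]

theorem allv_of_dvs_ne_zero (l : List ℕ) (v : ℕ → ℂ) (n : ℕ) (h : dvs l v n ≠ 0) :
    allv l (fun m => v m ≠ 0) n := by
  induction l generalizing n with
  | nil => exact h
  | cons k l ih =>
    simp only [dvs] at h
    have h1 := left_ne_zero_of_mul h
    have h2 := right_ne_zero_of_mul h
    refine ⟨ih _ h1, ih _ fun h3 => h2 ?_⟩
    rw [h3, map_zero]

theorem allv_mono (l : List ℕ) (P Q : ℕ → Prop) (hPQ : ∀ m, P m → Q m) (n : ℕ)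
    (h : allv l P n) : allv l Q n := by
  induction l generalizing n with
  | nil => exact hPQ _ h
  | cons k l ih => exact ⟨ih _ h.1, ih _ h.2⟩

theorem allv_sublist {I l : List ℕ} (hI : List.Sublist I l) (P : ℕ → Prop) (n : ℕ)
    (h : allv l P n) : allv I P n := by
  induction hI generalizing n with
  | slnil => exact h
  | cons a _ ih => exact ih _ h.2
  | cons_cons a _ ih => exact ⟨ih _ h.1, ih _ h.2⟩

theorem allv_of_le (l : List ℕ) (P : ℕ → Prop) (n : ℕ) (h : ∀ m, m ≤ n + l.sum → P m) :
    allv l P n := by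
  induction l generalizing n with
  | nil => exact h n (by simp)
  | cons k l ih =>
    simp only [List.sum_cons] at h
    exact ⟨ih _ fun m hm => h m (by omega), ih _ fun m hm => h m (by omega)⟩

theorem dfs_bound (l : List ℕ) (θ : ℕ → ℝ) (δ : ℝ) (n : ℕ)
    (h : allv l (fun m => |θ m| ≤ δ) n) : |dfs l θ n| ≤ 2 ^ l.length * δ := by
  induction l generalizing n with
  | nil => simpa [dfs, allv] using h
  | cons k l ih =>
    simp only [dfs, List.length_cons]
    have h1 := ih _ h.1
    have h2 := ih _ h.2
    have h3 := abs_sub (dfs l θ (n + k)) (dfs l θ n)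
    rw [pow_succ]
    linarith

theorem dfs_sub (l : List ℕ) (θ φ : ℕ → ℝ) (n : ℕ) :
    dfs l (fun m => θ m - φ m) n = dfs l θ n - dfs l φ n := by
  induction l generalizing n with
  | nil => rfl
  | cons k l ih => simp only [dfs, ih]; ring

theorem dfs_add (l : List ℕ) (θ φ : ℕ → ℝ) (n : ℕ) :
    dfs l (fun m => θ m + φ m) n = dfs l θ n + dfs l φ n := by
  induction l generalizing n with
  | nil => rfl
  | cons k l ih => simp only [dfs, ih]; ring

theorem dfs_mul_left (l : List ℕ) (c : ℝ) (θ : ℕ → ℝ) (n : ℕ) :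
    dfs l (fun m => c * θ m) n = c * dfs l θ n := by
  induction l generalizing n with
  | nil => rfl
  | cons k l ih => simp only [dfs, ih]; ring

theorem dfs_zero (l : List ℕ) (n : ℕ) : dfs l (fun _ => (0 : ℝ)) n = 0 := by
  induction l generalizing n with
  | nil => rfl
  | cons k l ih => simp only [dfs, ih]; ring

theorem dfs_sum {ι : Type*} (s : Finset ι) (l : List ℕ) (θ : ι → ℕ → ℝ) (n : ℕ) :
    dfs l (fun m => ∑ i ∈ s, θ i m) n = ∑ i ∈ s, dfs l (θ i) n := by
  classical
  induction s using Finset.induction_on with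
  | empty => simp [dfs_zero]
  | insert a s ha ih =>
    simp only [Finset.sum_insert ha]
    rw [dfs_add, ih]

theorem dfs_const (l : List ℕ) (hl : l ≠ []) (c : ℝ) (n : ℕ) : dfs l (fun _ => c) n = 0 := by
  induction l generalizing n with
  | nil => exact absurd rfl hl
  | cons k l ih =>
    simp only [dfs]
    rcases eq_or_ne l [] with rfl | h
    · simp [dfs]
    · rw [ih h, ih h, sub_zero]

theorem dfs_cast (l : List ℕ) (F : ℕ → ℤ) (n : ℕ) :
    ((dfs l F n : ℤ) : ℝ) = dfs l (fun m => (F m : ℝ)) n := by
  induction l generalizing n with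
  | nil => rfl
  | cons k l ih => simp only [dfs, ← ih]; push_cast; ring

theorem dfs_cons_comm {α : Type*} [AddCommGroup α] (k : ℕ) (l : List ℕ) (θ : ℕ → α) (n : ℕ) :
    dfs (k :: l) θ n = dfs l (fun m => θ (m + k) - θ m) n := by
  induction l generalizing n with
  | nil => rfl
  | cons h l ih =>
    have h1 : dfs (k :: h :: l) θ n = dfs (k :: l) θ (n + h) - dfs (k :: l) θ n := by
      simp only [dfs]
      rw [show n + h + k = n + k + h by ring]
      abel
    rw [h1, ih, ih]
    rfl

theorem dfs_shift {α : Type*} [AddCommGroup α] (l : List ℕ) (θ : ℕ → α) (n u : ℕ) :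
    dfs l (fun m => θ (n + m)) u = dfs l θ (n + u) := by
  induction l generalizing u with
  | nil => rfl
  | cons k l ih => simp only [dfs, ih, add_assoc]

/-- differences of monomials -/
theorem dfs_pow (l : List ℕ) : (∀ j < l.length, ∀ n, dfs l (fun u => (u : ℝ) ^ j) n = 0) ∧
    ∀ n, dfs l (fun u => (u : ℝ) ^ l.length) n = (l.length).factorial * l.prod := by
  induction l with
  | nil => simp [dfs]
  | cons h l ih =>
    obtain ⟨ih1, ih2⟩ := ih
    have key : ∀ j n, dfs (h :: l) (fun u => (u : ℝ) ^ j) n =
        ∑ i ∈ range j, ((h : ℝ) ^ (j - i) * (j.choose i)) * dfs l (fun u => (u : ℝ) ^ i) n := by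
      intro j n
      rw [dfs_cons_comm]
      have h1 : (fun m : ℕ => ((m + h : ℕ) : ℝ) ^ j - (m : ℝ) ^ j) =
          fun m : ℕ => ∑ i ∈ range j, ((h : ℝ) ^ (j - i) * (j.choose i)) * (m : ℝ) ^ i := by
        funext m
        push_cast
        rw [add_pow, Finset.sum_range_succ]
        simp only [Nat.sub_self, pow_zero, Nat.choose_self, Nat.cast_one, mul_one]
        rw [add_sub_cancel_right]
        refine Finset.sum_congr rfl fun i _ => ?_
        ring
      rw [h1, dfs_sum]
      refine Finset.sum_congr rfl fun i _ => ?_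
      rw [dfs_mul_left]
    refine ⟨fun j hj n => ?_, fun n => ?_⟩
    · rw [key]
      refine Finset.sum_eq_zero fun i hi => ?_
      rw [mem_range] at hi
      simp only [List.length_cons] at hj
      rw [ih1 i (by omega), mul_zero]
    · simp only [List.length_cons]
      rw [key, Finset.sum_range_succ, Finset.sum_eq_zero, zero_add, ih2]
      · rw [Nat.factorial_succ, List.prod_cons]
        simp only [Nat.add_sub_cancel_left, pow_one, Nat.choose_succ_self_right]
        push_cast
        ring
      · intro i hi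
        rw [mem_range] at hi
        rw [ih1 i hi, mul_zero]

/-- pairs of sublists covering `l` -/
def prs : List ℕ → List (List ℕ × List ℕ)
  | [] => [([], [])]
  | h :: l => (prs l).map (fun p => (h :: p.1, p.2)) ++ ((prs l).map (fun p => (p.1, h :: p.2)) ++
      (prs l).map (fun p => (h :: p.1, h :: p.2)))

theorem dfs_mul (l : List ℕ) (θ φ : ℕ → ℤ) (n : ℕ) :
    dfs l (fun m => θ m * φ m) n = ((prs l).map (fun p => dfs p.1 θ n * dfs p.2 φ n)).sum := by
  induction l generalizing n with
  | nil => simp [dfs, prs]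
  | cons h l ih =>
    simp only [dfs, prs, List.map_append, List.sum_append, List.map_map, ih]
    rw [← List.sum_map_add, ← List.sum_map_add]
    have : ∀ (L : List (List ℕ × List ℕ)) (f g : List ℕ × List ℕ → ℤ),
        (L.map f).sum - (L.map g).sum = (L.map (fun x => f x - g x)).sum := by
      intro L f g
      induction L with
      | nil => simp
      | cons a L ih => simp only [List.map_cons, List.sum_cons, ← ih]; ring
    rw [this]
    congr 1
    refine List.map_congr_left fun p _ => ?_
    simp only [Function.comp, dfs]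
    ring

theorem mem_prs {l : List ℕ} {p : List ℕ × List ℕ} (hp : p ∈ prs l) :
    List.Sublist p.1 l ∧ List.Sublist p.2 l ∧ l.length ≤ p.1.length + p.2.length := by
  induction l generalizing p with
  | nil =>
    simp only [prs, List.mem_singleton] at hp
    subst hp
    simp
  | cons h l ih =>
    simp only [prs, List.mem_append, List.mem_map] at hp
    rcases hp with ⟨q, hq, rfl⟩ | ⟨q, hq, rfl⟩ | ⟨q, hq, rfl⟩
    · obtain ⟨h1, h2, h3⟩ := ih hq
      exact ⟨h1.cons_cons h, h2.cons h, by simp only [List.length_cons]; omega⟩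
    · obtain ⟨h1, h2, h3⟩ := ih hq
      exact ⟨h1.cons h, h2.cons_cons h, by simp only [List.length_cons]; omega⟩
    · obtain ⟨h1, h2, h3⟩ := ih hq
      exact ⟨h1.cons_cons h, h2.cons_cons h, by simp only [List.length_cons]; omega⟩

theorem exists_mem_prs (l : List ℕ) (a b : ℕ) (hab : a + b = l.length) :
    ∃ p ∈ prs l, p.1.length = a ∧ p.2.length = b := by
  induction l generalizing a b with
  | nil =>
    simp only [List.length_nil] at hab
    refine ⟨([], []), by simp [prs], ?_, ?_⟩ <;> simp <;> omega
  | cons h l ih =>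
    simp only [List.length_cons] at hab
    rcases Nat.eq_zero_or_pos a with ha | ha
    · obtain ⟨p, hp, h1, h2⟩ := ih 0 (b - 1) (by omega)
      refine ⟨(p.1, h :: p.2), ?_, by simp only; omega, by simp only [List.length_cons]; omega⟩
      simp only [prs, List.mem_append, List.mem_map]
      exact Or.inr (Or.inl ⟨p, hp, rfl⟩)
    · obtain ⟨p, hp, h1, h2⟩ := ih (a - 1) b (by omega)
      refine ⟨(h :: p.1, p.2), ?_, by simp only [List.length_cons]; omega, by simp only; omega⟩
      simp only [prs, List.mem_append, List.mem_map]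
      exact Or.inl ⟨p, hp, rfl⟩

end Pool.Agent.JE.H44
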