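import Pool.Agent.Helper44.JE.Slow

/-!
MP_ce5406_an, block T11: the exponential sums with the quadratic phases.
-/

open Filter Topology Finset
open scoped BigOperators ComplexConjugate

namespace Pool.Agent.JE.H44

theorem rpow_div_tendsto (γ : ℝ) (hγ : γ < 1) :
    Tendsto (fun N : ℕ => (N : ℝ) ^ γ / N) atTop (𝓝 0) := by
  have h1 : Tendsto (fun N : ℕ => (N : ℝ) ^ (-(1 - γ))) atTop (𝓝 0) :=
    (tendsto_rpow_neg_atTop (show 0 < 1 - γ by linarith)).comp tendsto_natCast_atTop_atTop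
  refine h1.congr' ?_
  filter_upwards [eventually_ge_atTop 1] with N hN
  have hN0 : (0 : ℝ) < N := by exact_mod_cast hN
  rw [show -(1 - γ) = γ - 1 by ring, Real.rpow_sub hN0, Real.rpow_one]

theorem changes (B : Finset ℝ) (hB : ∀ b ∈ B, PosNonInt b) (t : ℝ → ℝ) (d : ℕ)
    (hd : ∀ b ∈ B, ⌊b⌋₊ ≤ d) (l : List ℕ) (hpos : ∀ h ∈ l, 1 ≤ h) :
    Tendsto (fun N => ravg N (fun n => open Classical in
      if (∏ b ∈ B, e (t b * (Qf b l (n + 1) : ℤ))) = (∏ b ∈ B, e (t b * (Qf b l n : ℤ)))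
      then 0 else 1)) atTop (𝓝 0) := by
  classical
  set M := d.factorial * l.prod with hM
  have hlp : 0 < l.prod := List.prod_pos fun h hh => hpos h hh
  have hM1 : 1 ≤ M := Nat.mul_pos (Nat.factorial_pos d) hlp
  set a : ℝ → ℕ → ℕ := fun b n => ⌊2 * M * xb b n⌋₊ with ha
  have hQ : ∀ b ∈ B, ∀ n, Qf b l n = (Qn ⌊b⌋₊ l M (a b n) : ℕ) :=
    fun b hb n => Qf_eq b (hB b hb).1 l d M (hd b hb) hM1 dvd_rfl n
  have hmono : ∀ b ∈ B, ∀ n, a b n ≤ a b (n + 1) := by
    intro b hb n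
    refine Nat.floor_mono ?_
    refine mul_le_mul_of_nonneg_left ?_ (by positivity)
    refine mul_le_mul_of_nonneg_left ?_ (lead_pos b (hB b hb).1).le
    refine Real.rpow_le_rpow (Nat.cast_nonneg n) (by push_cast; linarith) ?_
    exact (frac_pos b (hB b hb)).1.le
  have hle : ∀ n, (if (∏ b ∈ B, e (t b * (Qf b l (n + 1) : ℤ))) =
      (∏ b ∈ B, e (t b * (Qf b l n : ℤ))) then (0 : ℝ) else 1) ≤
      ∑ b ∈ B, ((a b (n + 1) : ℝ) - a b n) := by
    intro n
    have hnn : ∀ b ∈ B, (0 : ℝ) ≤ (a b (n + 1) : ℝ) - a b n := by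
      intro b hb
      have : (a b n : ℝ) ≤ a b (n + 1) := by exact_mod_cast hmono b hb n
      linarith
    split_ifs with h
    · exact Finset.sum_nonneg hnn
    · have h1 : ∃ b ∈ B, a b (n + 1) ≠ a b n := by
        by_contra hcon
        push Not at hcon
        apply h
        refine Finset.prod_congr rfl fun b hb => ?_
        rw [hQ b hb, hQ b hb, hcon b hb]
      obtain ⟨b, hb, hne⟩ := h1
      have h2 : a b n + 1 ≤ a b (n + 1) := by
        have := hmono b hb n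
        omega
      have h3 : (1 : ℝ) ≤ (a b (n + 1) : ℝ) - a b n := by
        have : ((a b n + 1 : ℕ) : ℝ) ≤ a b (n + 1) := by exact_mod_cast h2
        push_cast at this
        linarith
      exact h3.trans (Finset.single_le_sum hnn hb)
  have hlim : Tendsto (fun N : ℕ => ∑ b ∈ B, 2 * M * lead b * ((N : ℝ) ^ (b - ⌊b⌋₊) / N)) atTop
      (𝓝 (∑ b ∈ B, 2 * M * lead b * 0)) :=
    tendsto_finsetSum _ fun b hb => (rpow_div_tendsto _ (frac_pos b (hB b hb)).2).const_mul _
  simp only [mul_zero, Finset.sum_const_zero] at hlim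
  refine squeeze_zero (fun N => ?_) (fun N => ?_) hlim
  · exact ravg_nonneg _ _ fun n => by split_ifs <;> norm_num
  · refine (ravg_mono N _ _ hle).trans ?_
    rw [ravg_sum]
    refine Finset.sum_le_sum fun b hb => ?_
    simp only [ravg]
    rw [Finset.sum_range_sub (fun n => (a b n : ℝ)), ← mul_div_assoc]
    refine div_le_div_of_nonneg_right ?_ (Nat.cast_nonneg N)
    have h1 : (a b N : ℝ) ≤ 2 * M * xb b N :=
      Nat.floor_le (mul_nonneg (by positivity) (xb_nonneg b (hB b hb).1 N))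
    have h2 : (0 : ℝ) ≤ a b 0 := Nat.cast_nonneg _
    simp only [xb] at h1
    linarith

theorem expsum (HS : SlowHyp) (HF : FastHyp) (B : Finset ℝ) (hB : ∀ b ∈ B, PosNonInt b)
    (t : ℝ → ℝ) (ht : ∀ b ∈ B, Irrational (t b)) (c : ℝ) (hc : c ∈ B) (hmax : ∀ b ∈ B, b ≤ c)
    (l : List ℕ) (hl : l.length = 2 * ⌊c⌋₊) (hpos : ∀ h ∈ l, 1 ≤ h)
    (T : Finset ℝ) (hT : ∀ τ ∈ T, PosNonInt τ) (κ : ℝ → ℝ) (ψ : ℕ → ℝ) (c₀ : ℝ)
    (hψ : Tendsto (fun n : ℕ => ψ n - ∑ τ ∈ T, κ τ * (n : ℝ) ^ τ) atTop (𝓝 c₀)) :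
    Tendsto (fun N => avg N (fun n => e (ψ n) * ∏ b ∈ B, e (t b * (Qf b l n : ℤ))))
      atTop (𝓝 0) := by
  classical
  have hfl : ∀ b ∈ B, ⌊b⌋₊ ≤ ⌊c⌋₊ := fun b hb => Nat.floor_mono (hmax b hb)
  by_cases hbig : ∃ τ ∈ T, 1 < τ ∧ κ τ ≠ 0
  · have h1 := HF T hT κ hbig ψ c₀ hψ (fun n => ∏ b ∈ B, e (t b * (Qf b l n : ℤ)))
      (fun n => by rw [norm_prod]; exact Finset.prod_eq_one fun b _ => norm_e _)
      (changes B hB t ⌊c⌋₊ hfl l hpos)
    refine h1.congr fun N => ?_
    congr 1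
    funext n
    ring
  push Not at hbig
  set r : ℕ → ℝ := fun n => ψ n - ∑ τ ∈ T, κ τ * (n : ℝ) ^ τ with hr
  have hdecomp : ∀ n, e (ψ n) = e (r n) * ∏ τ ∈ T, e (κ τ * (n : ℝ) ^ τ) := by
    intro n
    rw [← e_sum, ← e_add]
    congr 1
    simp only [hr]
    ring
  have hrs : ∀ γ, SlowSeq γ (fun n => e (r n)) := fun γ =>
    SlowSeq.of_tendsto (norm_e c₀).le ((continuous_e.tendsto c₀).comp hψ)
  obtain ⟨hγ0, hγ1⟩ := frac_pos c (hB c hc)
  by_cases hmid : ∃ τ ∈ T, c - ⌊c⌋₊ < τ ∧ κ τ ≠ 0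
  · -- the top exponent of ψ is larger than the exponents of the phases
    have hne : (T.filter (fun τ => c - ⌊c⌋₊ < τ ∧ κ τ ≠ 0)).Nonempty := by
      obtain ⟨τ, h1, h2⟩ := hmid
      exact ⟨τ, Finset.mem_filter.mpr ⟨h1, h2⟩⟩
    obtain ⟨τ, hτ, hτmax⟩ := Finset.exists_max_image _ id hne
    rw [Finset.mem_filter] at hτ
    obtain ⟨hτT, hτγ, hτκ⟩ := hτ
    have hτ1 : τ < 1 := by
      by_contra h
      push Not at h
      rcases h.lt_or_eq with h | h
      · exact hτκ (hbig τ hτT h)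
      · exact (hT τ hτT).2 1 (by push_cast; exact h.symm)
    have hu : SlowSeq τ (fun n => e (r n) * (∏ σ ∈ T.erase τ, e (κ σ * (n : ℝ) ^ σ)) *
        ∏ b ∈ B, e (t b * (Qf b l n : ℤ))) := by
      refine SlowSeq.mul (SlowSeq.mul (hrs τ) (SlowSeq.prod _ _ ?_ fun _ _ _ => (norm_e _).le) ?_)
        (SlowSeq.prod _ _ ?_ fun _ _ _ => (norm_e _).le) ?_
      · intro σ hσ
        rw [Finset.mem_erase] at hσ
        refine SlowSeq.e_pow _ _ ?_
        by_cases h0 : κ σ = 0
        · exact Or.inl h0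
        · refine Or.inr ⟨(hT σ hσ.2).1, ?_⟩
          by_contra hcon
          push Not at hcon
          have h1 : τ < σ := lt_of_le_of_ne hcon (Ne.symm hσ.1)
          have h2 := hτmax σ (Finset.mem_filter.mpr ⟨hσ.2, hτγ.trans h1, h0⟩)
          simp only [id] at h2
          linarith
      · intro n
        rw [norm_prod, Finset.prod_eq_one fun _ _ => norm_e _]
      · intro b hb
        refine slow_phase (t b) b (hB b hb) l ⌊c⌋₊ hl hpos ?_
        rcases (hfl b hb).lt_or_eq with h | h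
        · exact Or.inl h
        · refine Or.inr ⟨h, ?_⟩
          have := hmax b hb
          rw [h]
          linarith
      · intro n
        rw [norm_prod, Finset.prod_eq_one fun _ _ => norm_e _]
    have h1 := slow_times_pow HS (κ τ) τ hτκ (hT τ hτT).1 hτ1 _ hu (fun n => by
      rw [norm_mul, norm_mul, norm_prod, norm_prod, Finset.prod_eq_one fun _ _ => norm_e _,
        Finset.prod_eq_one fun _ _ => norm_e _, norm_e]
      norm_num)
    refine h1.congr fun N => ?_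
    congr 1
    funext n
    rw [hdecomp n, ← Finset.mul_prod_erase T _ hτT]
    ring
  · push Not at hmid
    set γ := c - (⌊c⌋₊ : ℝ) with hγ
    set κ' : ℝ := if γ ∈ T then κ γ else 0 with hκ'
    have hu : SlowSeq γ (fun n => e (r n) * (∏ σ ∈ T.erase γ, e (κ σ * (n : ℝ) ^ σ)) *
        ∏ b ∈ B.erase c, e (t b * (Qf b l n : ℤ))) := by
      refine SlowSeq.mul (SlowSeq.mul (hrs γ) (SlowSeq.prod _ _ ?_ fun _ _ _ => (norm_e _).le) ?_)
        (SlowSeq.prod _ _ ?_ fun _ _ _ => (norm_e _).le) ?_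
      · intro σ hσ
        rw [Finset.mem_erase] at hσ
        refine SlowSeq.e_pow _ _ ?_
        by_cases h0 : κ σ = 0
        · exact Or.inl h0
        · refine Or.inr ⟨(hT σ hσ.2).1, ?_⟩
          by_contra hcon
          push Not at hcon
          have h1 : γ < σ := lt_of_le_of_ne hcon (Ne.symm hσ.1)
          exact h0 (hmid σ hσ.2 h1)
      · intro n
        rw [norm_prod, Finset.prod_eq_one fun _ _ => norm_e _]
      · intro b hb
        rw [Finset.mem_erase] at hb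
        refine slow_phase (t b) b (hB b hb.2) l ⌊c⌋₊ hl hpos ?_
        rcases (hfl b hb.2).lt_or_eq with h | h
        · exact Or.inl h
        · refine Or.inr ⟨h, ?_⟩
          have := lt_of_le_of_ne (hmax b hb.2) hb.1
          rw [h, hγ]
          linarith
      · intro n
        rw [norm_prod, Finset.prod_eq_one fun _ _ => norm_e _]
    have h1 := slow_times_quad HS (t c) c κ' (ht c hc) (hB c hc) l hl hpos _ hu (fun n => by
      rw [norm_mul, norm_mul, norm_prod, norm_prod, Finset.prod_eq_one fun _ _ => norm_e _,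
        Finset.prod_eq_one fun _ _ => norm_e _, norm_e]
      norm_num)
    refine h1.congr fun N => ?_
    congr 1
    funext n
    have h2 : ∏ τ ∈ T, e (κ τ * (n : ℝ) ^ τ) =
        e (κ' * (n : ℝ) ^ γ) * ∏ σ ∈ T.erase γ, e (κ σ * (n : ℝ) ^ σ) := by
      by_cases h : γ ∈ T
      · rw [← Finset.mul_prod_erase T _ h]
        simp only [hκ', h, if_true]
      · rw [Finset.erase_eq_of_notMem h]
        simp only [hκ', h, if_false, zero_mul, e_zero, one_mul]
    rw [hdecomp n, h2, ← Finset.mul_prod_erase B _ hc]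
    ring

end Pool.Agent.JE.H44
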