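import Pool.Agent.Helper44.JE.Cell

/-!
MP_ce5406_an, block T11: the rounded phases as functions of one integer variable, and
Weyl sums of degree two.
-/

open Filter Topology Finset
open scoped BigOperators ComplexConjugate

namespace Pool.Agent.JE.H44

theorem e_eq_one_iff (x : ℝ) : e x = 1 ↔ ∃ m : ℤ, x = m := by
  simp only [e]
  rw [Complex.exp_eq_one_iff]
  constructor
  · rintro ⟨m, hm⟩
    refine ⟨m, ?_⟩
    have hpi : (Real.pi : ℂ) ≠ 0 := by exact_mod_cast Real.pi_ne_zero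
    have h1 : ((x : ℝ) : ℂ) = ((m : ℝ) : ℂ) := by
      have h2 : (2 * Real.pi * Complex.I : ℂ) ≠ 0 := by
        simp [Real.pi_ne_zero, Complex.I_ne_zero]
      apply mul_right_cancel₀ h2
      push_cast
      linear_combination hm
    exact_mod_cast h1
  · rintro ⟨m, rfl⟩
    exact ⟨m, by push_cast; ring⟩

theorem geom_bound (θ : ℝ) (N : ℕ) (h : e θ ≠ 1) :
    ‖∑ j ∈ range N, e (θ * j)‖ ≤ 2 / ‖e θ - 1‖ := by
  have h1 : ∀ j : ℕ, e (θ * j) = e θ ^ j := by
    intro j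
    induction j with
    | zero => simp [e_zero]
    | succ j ih =>
      rw [pow_succ, ← ih, ← e_add]
      congr 1; push_cast; ring
  simp only [h1]
  rw [geom_sum_eq h, norm_div]
  refine div_le_div_of_nonneg_right ?_ (norm_nonneg _)
  refine (norm_sub_le _ _).trans ?_
  rw [norm_pow, norm_e, one_pow, norm_one]
  norm_num

theorem geom_tendsto (θ : ℝ) (h : e θ ≠ 1) :
    Tendsto (fun N : ℕ => ‖avg N (fun j => e (θ * j))‖) atTop (𝓝 0) := by
  refine squeeze_zero (fun N => norm_nonneg _) (fun N => ?_)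
    (tendsto_const_div_atTop_nhds_zero_nat (2 / ‖e θ - 1‖))
  simp only [avg, norm_div, Complex.norm_natCast]
  exact div_le_div_of_nonneg_right (geom_bound θ N h) (Nat.cast_nonneg N)

/-- Weyl sums of degree two, uniformly in the lower order terms -/
theorem weyl (α : ℝ) (hα : Irrational α) (ε : ℝ) (hε : 0 < ε) :
    ∃ L : ℕ, 1 ≤ L ∧ ∀ β γ : ℝ,
      ‖avg L (fun j => e (α * (j : ℝ) ^ 2 + β * j + γ))‖ ≤ ε := by
  obtain ⟨H0, hH0⟩ := exists_nat_gt (16 / ε ^ 2)
  set H := max H0 1 with hHdef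
  have hH1 : 1 ≤ H := le_max_right _ _
  have hHr : (0 : ℝ) < H := by exact_mod_cast hH1
  have hH2 : 4 / (H : ℝ) ≤ ε ^ 2 / 4 := by
    have h0 : (H0 : ℝ) ≤ H := by exact_mod_cast le_max_left _ _
    have h1 : 16 / ε ^ 2 < H := hH0.trans_le h0
    rw [div_lt_iff₀ (by positivity)] at h1
    rw [div_le_div_iff₀ hHr (by norm_num)]
    nlinarith
  have hne : ∀ h ∈ Ico 1 H, e (2 * α * h) ≠ 1 := by
    intro h hh h1
    rw [mem_Ico] at hh
    obtain ⟨m, hm⟩ := (e_eq_one_iff _).mp h1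
    have h2 : Irrational (2 * α * h) := by
      have e1 : 2 * α * (h : ℝ) = ((2 * h : ℕ) : ℝ) * α := by push_cast; ring
      rw [e1]
      exact hα.natCast_mul (by omega)
    exact h2.ne_int m hm
  have h1 : Tendsto (fun N : ℕ => 4 * ((∑ h ∈ Ico 1 H, ‖avg N (fun j => e (2 * α * h * j))‖) / H) +
      12 * (H : ℝ) / N) atTop (𝓝 0) := by
    have h2 : Tendsto (fun N : ℕ => ∑ h ∈ Ico 1 H, ‖avg N (fun j => e (2 * α * h * j))‖) atTop
        (𝓝 (∑ h ∈ Ico 1 H, 0)) :=
      tendsto_finsetSum _ fun k hk => geom_tendsto _ (hne k hk)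
    have h3 := ((h2.div_const (H : ℝ)).const_mul 4).add
      (tendsto_const_div_atTop_nhds_zero_nat (12 * (H : ℝ)))
    simpa using h3
  obtain ⟨N, hN1, hN⟩ := ((eventually_ge_atTop 1).and
    (h1.eventually_lt_const (show (0:ℝ) < ε ^ 2 / 4 by positivity))).exists
  refine ⟨N, hN1, fun β γ => ?_⟩
  set v : ℕ → ℂ := fun j => e (α * (j : ℝ) ^ 2 + β * j + γ) with hv
  have hv1 : ∀ n, ‖v n‖ ≤ 1 := fun n => (norm_e _).le
  have h2 := vdc_ineq v hv1 H N hH1 hN1
  have h3 : ∀ h : ℕ, ‖avg N (fun n => v (n + h) * conj (v n))‖ =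
      ‖avg N (fun j => e (2 * α * h * j))‖ := by
    intro h
    have h4 : (fun n => v (n + h) * conj (v n)) =
        fun j : ℕ => e (α * (h : ℝ) ^ 2 + β * h) * e (2 * α * h * j) := by
      funext n
      simp only [hv]
      rw [← e_sub, ← e_add]
      congr 1
      push_cast
      ring
    rw [h4, avg_mul_left, norm_mul, norm_e, one_mul]
  have h4 : ravg H (fun h => ‖avg N (fun n => v (n + h) * conj (v n))‖) ≤
      1 / H + (∑ h ∈ Ico 1 H, ‖avg N (fun j => e (2 * α * h * j))‖) / H := by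
    simp only [ravg]
    rw [← add_div]
    refine div_le_div_of_nonneg_right ?_ hHr.le
    rw [Finset.range_eq_Ico, Finset.sum_eq_sum_Ico_succ_bot (by omega)]
    refine add_le_add ?_ (le_of_eq ?_)
    · refine norm_avg_le_one _ _ fun n => ?_
      rw [norm_mul, RCLike.norm_conj]
      exact mul_le_one₀ (hv1 _) (norm_nonneg _) (hv1 _)
    · exact Finset.sum_congr rfl fun h _ => h3 h
  have h5 : ‖avg N v‖ ^ 2 ≤ ε ^ 2 := by
    have e1 : 4 * (1 / (H : ℝ)) = 4 / H := by ring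
    nlinarith [sq_nonneg ε]
  exact (abs_le_of_sq_le_sq' h5 hε.le).2

/-- the fast variable `x_b(n)` -/
noncomputable def xb (b : ℝ) (n : ℕ) : ℝ := lead b * (n : ℝ) ^ (b - ⌊b⌋₊)

def rr (M m a : ℕ) : ℕ := (a + M / m) / (2 * (M / m))

theorem rr_spec (M m : ℕ) (hM : 1 ≤ M) (hm : m ∣ M) (x : ℝ) (hx : 0 ≤ x) :
    round ((m : ℝ) * x) = (rr M m ⌊2 * M * x⌋₊ : ℕ) := by
  obtain ⟨q, rfl⟩ := hm
  have hm0 : 0 < m := Nat.pos_of_ne_zero (by rintro rfl; simp at hM)
  have hq0 : 0 < q := Nat.pos_of_ne_zero (by rintro rfl; simp at hM)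
  have hqr : (0 : ℝ) < q := by exact_mod_cast hq0
  simp only [rr, Nat.mul_div_cancel_left q hm0]
  rw [round_eq]
  have h1 : (m : ℝ) * x + 1 / 2 = (2 * ((m * q : ℕ) : ℝ) * x + (q : ℕ)) / ((2 * q : ℕ) : ℝ) := by
    push_cast
    field_simp
  have h0 : 0 ≤ 2 * ((m * q : ℕ) : ℝ) * x := by positivity
  have h2 : ⌊(m : ℝ) * x + 1 / 2⌋ = (⌊(m : ℝ) * x + 1 / 2⌋₊ : ℕ) := by
    rw [Int.natCast_floor_eq_floor (by positivity)]
  rw [h2, h1, Nat.floor_div_natCast, Nat.floor_add_natCast h0]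

theorem rr_add (M m a j : ℕ) (hM : 1 ≤ M) (hm : m ∣ M) :
    rr M m (a + 2 * M * j) = rr M m a + m * j := by
  obtain ⟨q, rfl⟩ := hm
  have hm0 : 0 < m := Nat.pos_of_ne_zero (by rintro rfl; simp at hM)
  have hq0 : 0 < q := Nat.pos_of_ne_zero (by rintro rfl; simp at hM)
  simp only [rr, Nat.mul_div_cancel_left q hm0]
  have h1 : a + 2 * (m * q) * j + q = a + q + 2 * q * (m * j) := by ring
  rw [h1, Nat.add_mul_div_left _ _ (by omega)]

/-- the quadratic phase as a function of one integer variable -/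
def Qn (d : ℕ) (l : List ℕ) (M a : ℕ) : ℕ :=
  ((prs l).map (fun p => if p.1.length = d ∧ p.2.length = d then
    rr M (d.factorial * p.1.prod) a * rr M (d.factorial * p.2.prod) a else 0)).sum

theorem lead_pos (b : ℝ) (hb : 0 < b) : 0 < lead b := by
  simp only [lead]
  refine div_pos (Finset.prod_pos fun j hj => ?_) (by positivity)
  rw [mem_range] at hj
  have h1 : ((j + 1 : ℕ) : ℝ) ≤ (⌊b⌋₊ : ℝ) := by exact_mod_cast hj
  have h2 : (⌊b⌋₊ : ℝ) ≤ b := Nat.floor_le hb.le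
  push_cast at h1
  linarith

theorem xb_nonneg (b : ℝ) (hb : 0 < b) (n : ℕ) : 0 ≤ xb b n :=
  mul_nonneg (lead_pos b hb).le (Real.rpow_nonneg (Nat.cast_nonneg n) _)

theorem sublist_dvd {I l : List ℕ} (hI : List.Sublist I l) (d d' : ℕ) (hd : d ≤ d') (M : ℕ)
    (hM : d'.factorial * l.prod ∣ M) : d.factorial * I.prod ∣ M :=
  (Nat.mul_dvd_mul (Nat.factorial_dvd_factorial hd) hI.prod_dvd_prod).trans hM

theorem Qf_eq (b : ℝ) (hb : 0 < b) (l : List ℕ) (d' M : ℕ) (hd : ⌊b⌋₊ ≤ d') (hM1 : 1 ≤ M)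
    (hM : d'.factorial * l.prod ∣ M) (n : ℕ) :
    Qf b l n = (Qn ⌊b⌋₊ l M ⌊2 * M * xb b n⌋₊ : ℕ) := by
  simp only [Qf, Qn]
  rw [Nat.cast_list_sum, List.map_map]
  congr 1
  refine List.map_congr_left fun p hp => ?_
  obtain ⟨h1, h2, -⟩ := mem_prs hp
  simp only [Function.comp]
  split_ifs with hc
  · simp only [Rf]
    have e1 := rr_spec M (⌊b⌋₊.factorial * p.1.prod) hM1 (sublist_dvd h1 _ _ hd M hM)
      (xb b n) (xb_nonneg b hb n)
    have e2 := rr_spec M (⌊b⌋₊.factorial * p.2.prod) hM1 (sublist_dvd h2 _ _ hd M hM)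
      (xb b n) (xb_nonneg b hb n)
    simp only [xb] at e1 e2 ⊢
    rw [e1, e2]
    push_cast
    ring
  · simp

/-- the linear coefficient -/
def Bn (d : ℕ) (l : List ℕ) (M a : ℕ) : ℕ :=
  ((prs l).map (fun p => if p.1.length = d ∧ p.2.length = d then
    (d.factorial * p.1.prod) * rr M (d.factorial * p.2.prod) a +
    (d.factorial * p.2.prod) * rr M (d.factorial * p.1.prod) a else 0)).sum

/-- the leading coefficient -/
def Cn (d : ℕ) (l : List ℕ) : ℕ :=
  ((prs l).map (fun p => if p.1.length = d ∧ p.2.length = d then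
    (d.factorial * p.1.prod) * (d.factorial * p.2.prod) else 0)).sum

theorem Qn_add (d : ℕ) (l : List ℕ) (M : ℕ) (hM1 : 1 ≤ M) (hM : d.factorial * l.prod ∣ M)
    (a j : ℕ) : Qn d l M (a + 2 * M * j) = Cn d l * j ^ 2 + Bn d l M a * j + Qn d l M a := by
  simp only [Qn, Bn, Cn]
  have key : ∀ (L : List (List ℕ × List ℕ)), (∀ p ∈ L, p.1.Sublist l ∧ p.2.Sublist l) →
      (L.map (fun p => if p.1.length = d ∧ p.2.length = d then
    rr M (d.factorial * p.1.prod) (a + 2 * M * j) * rr M (d.factorial * p.2.prod) (a + 2 * M * j)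
      else 0)).sum =
      (L.map (fun p => if p.1.length = d ∧ p.2.length = d then
    (d.factorial * p.1.prod) * (d.factorial * p.2.prod) else 0)).sum * j ^ 2 +
      (L.map (fun p => if p.1.length = d ∧ p.2.length = d then
    (d.factorial * p.1.prod) * rr M (d.factorial * p.2.prod) a +
    (d.factorial * p.2.prod) * rr M (d.factorial * p.1.prod) a else 0)).sum * j +
      (L.map (fun p => if p.1.length = d ∧ p.2.length = d then
    rr M (d.factorial * p.1.prod) a * rr M (d.factorial * p.2.prod) a else 0)).sum := by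
    intro L hL
    induction L with
    | nil => simp
    | cons p L ih =>
      simp only [List.map_cons, List.sum_cons]
      rw [ih fun q hq => hL q (by simp [hq])]
      obtain ⟨h1, h2⟩ := hL p (by simp)
      split_ifs with hc
      · rw [rr_add M _ a j hM1 (sublist_dvd h1 _ _ le_rfl M hM),
          rr_add M _ a j hM1 (sublist_dvd h2 _ _ le_rfl M hM)]
        ring
      · ring
  exact key (prs l) fun p hp => ⟨(mem_prs hp).1, (mem_prs hp).2.1⟩

theorem Cn_pos (d : ℕ) (l : List ℕ) (hl : l.length = 2 * d) (hpos : ∀ h ∈ l, 1 ≤ h) :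
    0 < Cn d l := by
  obtain ⟨p, hp, h1, h2⟩ := exists_mem_prs l d d (by omega)
  have hprod : ∀ I : List ℕ, I.Sublist l → 0 < I.prod := by
    intro I hI
    exact List.prod_pos fun h hh => hpos h (hI.subset hh)
  have h3 : (d.factorial * p.1.prod) * (d.factorial * p.2.prod) ≤ Cn d l := by
    simp only [Cn]
    refine List.single_le_sum (fun x _ => Nat.zero_le x) _ ?_
    rw [List.mem_map]
    exact ⟨p, hp, by simp [h1, h2]⟩
  refine lt_of_lt_of_le ?_ h3
  have h4 := hprod p.1 (mem_prs hp).1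
  have h5 := hprod p.2 (mem_prs hp).2.1
  have h6 := Nat.factorial_pos d
  positivity

theorem sum_range_mul (f : ℕ → ℂ) (q L : ℕ) :
    ∑ i ∈ range (q * L), f i = ∑ r ∈ range q, ∑ j ∈ range L, f (r + q * j) := by
  induction L with
  | zero => simp
  | succ L ih =>
    have h1 : q * (L + 1) = q * L + q := by ring
    rw [h1, Finset.sum_range_add, ih]
    simp only [Finset.sum_range_succ]
    rw [Finset.sum_add_distrib]
    congr 1
    refine Finset.sum_congr rfl fun r _ => ?_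
    rw [add_comm]

theorem avg_range_mul (f : ℕ → ℂ) (q L : ℕ) (hq : 1 ≤ q) (hL : 1 ≤ L) :
    avg (q * L) f = avg q (fun r => avg L (fun j => f (r + q * j))) := by
  simp only [avg]
  rw [sum_range_mul, ← Finset.sum_div, div_div]
  congr 1
  push_cast
  ring

/-- averaging property of the quadratic phase -/
theorem quad_avg (t lam : ℝ) (ht : Irrational t) (d : ℕ) (l : List ℕ) (hl : l.length = 2 * d)
    (hpos : ∀ h ∈ l, 1 ≤ h) (M : ℕ) (hM1 : 1 ≤ M) (hM : d.factorial * l.prod ∣ M) (ε : ℝ)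
    (hε : 0 < ε) : ∃ L : ℕ, 1 ≤ L ∧ ∀ a₀ : ℕ,
      ‖avg L (fun i => e (lam * ((a₀ + i : ℕ) : ℝ) + t * (Qn d l M (a₀ + i) : ℕ)))‖ ≤ ε := by
  have hC := Cn_pos d l hl hpos
  have hirr : Irrational (t * (Cn d l : ℕ)) := ht.mul_natCast hC.ne'
  obtain ⟨L, hL1, hL⟩ := weyl _ hirr ε hε
  refine ⟨2 * M * L, by nlinarith, fun a₀ => ?_⟩
  rw [avg_range_mul _ (2 * M) L (by omega) hL1]
  refine (norm_avg_le _ _).trans (ravg_le_of_le _ _ ε hε.le fun r => ?_)
  have h1 := hL (lam * (2 * M : ℕ) + t * (Bn d l M (a₀ + r) : ℕ))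
    (lam * ((a₀ + r : ℕ) : ℝ) + t * (Qn d l M (a₀ + r) : ℕ))
  refine le_trans (le_of_eq ?_) h1
  congr 2
  funext j
  congr 1
  rw [← add_assoc, Qn_add d l M hM1 hM]
  push_cast
  ring

end Pool.Agent.JE.H44
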