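import Pool.Agent.Helper44.JE.Rnd

/-!
MP_ce5406_an, block T11: slow sequences and the exponential sums.
-/

open Filter Topology Finset
open scoped BigOperators ComplexConjugate

namespace Pool.Agent.JE.H44

/-- The statement of block T4 for complex valued functions. -/
def SlowHyp : Prop := ∀ (I : Type) [Fintype I] (κ γ : ℝ), 0 < κ → 0 < γ → γ < 1 →
    ∀ (κs τs : I → ℝ), (∀ i, 0 < τs i ∧ τs i < γ) → ∀ (g : (I → ℤ) → ℕ → ℂ),
    (∀ σ b, ‖g σ b‖ ≤ 1) →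
    (∀ ε > 0, ∃ L : ℕ, 1 ≤ L ∧ ∀ σ b0, ‖(L : ℝ)⁻¹ • ∑ i ∈ range L, g σ (b0 + i)‖ ≤ ε) →
    Tendsto (fun N : ℕ => ‖(N : ℝ)⁻¹ • ∑ n ∈ range N,
      g (fun i => ⌊κs i * (n : ℝ) ^ τs i⌋) ⌊κ * (n : ℝ) ^ γ⌋₊‖) atTop (𝓝 0)

/-- The statement of block T5b. -/
def FastHyp : Prop := ∀ (T : Finset ℝ), (∀ τ ∈ T, PosNonInt τ) → ∀ (κ : ℝ → ℝ),
    (∃ τ ∈ T, 1 < τ ∧ κ τ ≠ 0) → ∀ (ψ : ℕ → ℝ) (c₀ : ℝ),
    Tendsto (fun n : ℕ => ψ n - ∑ τ ∈ T, κ τ * (n : ℝ) ^ τ) atTop (𝓝 c₀) →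
    ∀ (Λ : ℕ → ℂ), (∀ n, ‖Λ n‖ = 1) →
    Tendsto (fun N => ravg N (fun n => open Classical in if Λ (n + 1) = Λ n then 0 else 1))
      atTop (𝓝 0) →
    Tendsto (fun N => avg N (fun n => Λ n * e (ψ n))) atTop (𝓝 0)

theorem tendsto_avg_of_approx (u : ℕ → ℂ)
    (h : ∀ ε > 0, ∃ w : ℕ → ℂ, (∀ᶠ n in atTop, ‖u n - w n‖ ≤ ε) ∧
      Tendsto (fun N => avg N w) atTop (𝓝 0)) :
    Tendsto (fun N => avg N u) atTop (𝓝 0) := by
  rw [Metric.tendsto_atTop']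
  intro ε hε
  obtain ⟨w, h1, h2⟩ := h (ε / 4) (by positivity)
  obtain ⟨n0, hn0⟩ := eventually_atTop.mp h1
  set C := ∑ n ∈ range n0, ‖u n - w n‖ with hC
  have h3 : Tendsto (fun N : ℕ => C / (N : ℝ)) atTop (𝓝 0) := tendsto_const_div_atTop_nhds_zero_nat C
  have h4 : ∀ᶠ N : ℕ in atTop, C / (N : ℝ) < ε / 4 := h3.eventually_lt_const (by positivity)
  have h5 : ∀ᶠ N : ℕ in atTop, ‖avg N w‖ < ε / 4 := by
    have := h2.norm
    rw [norm_zero] at this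
    exact this.eventually_lt_const (by positivity)
  obtain ⟨N0, hN0⟩ := eventually_atTop.mp ((h4.and h5).and (eventually_ge_atTop 1))
  refine ⟨N0, fun N hN => ?_⟩
  obtain ⟨⟨h6, h7⟩, h8⟩ := hN0 N hN.le
  have hNr : (0 : ℝ) < N := by exact_mod_cast h8
  rw [dist_zero_right]
  have h9 : ‖avg N (fun n => u n - w n)‖ ≤ ε / 4 + C / N := by
    refine (norm_avg_le _ _).trans ?_
    simp only [ravg]
    rw [div_le_iff₀ hNr, add_mul, div_mul_cancel₀ _ hNr.ne']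
    have h10 : ∀ n ∈ range N, ‖u n - w n‖ ≤ ε / 4 + (if n < n0 then ‖u n - w n‖ else 0) := by
      intro n _
      split_ifs with hh
      · linarith
      · rw [add_zero]; exact hn0 n (by omega)
    refine (Finset.sum_le_sum h10).trans ?_
    rw [Finset.sum_add_distrib, Finset.sum_const, card_range, nsmul_eq_mul, mul_comm (ε / 4)]
    refine add_le_add le_rfl ?_
    rw [← Finset.sum_filter, hC]
    refine Finset.sum_le_sum_of_subset_of_nonneg ?_ fun _ _ _ => norm_nonneg _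
    intro x hx
    simp only [mem_filter, mem_range] at hx ⊢
    exact hx.2
  have h10 : avg N u = avg N w + avg N (fun n => u n - w n) := by
    rw [avg_sub]; ring
  rw [h10]
  refine (norm_add_le _ _).trans_lt ?_
  linarith

/-- Sequences which are approximated by functions of integer parts of powers with exponents
smaller than `γ`. -/
def SlowSeq (γ : ℝ) (u : ℕ → ℂ) : Prop :=
  ∀ ε > 0, ∃ (S : Finset (ℝ × ℝ)) (A : (ℝ × ℝ → ℤ) → ℂ), (∀ p ∈ S, 0 < p.2 ∧ p.2 < γ) ∧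
    (∀ σ σ' : ℝ × ℝ → ℤ, (∀ p ∈ S, σ p = σ' p) → A σ = A σ') ∧ (∀ σ, ‖A σ‖ ≤ 1) ∧
    ∀ᶠ n : ℕ in atTop, ‖u n - A (fun p => ⌊p.1 * (n : ℝ) ^ p.2⌋)‖ ≤ ε

theorem SlowSeq.mul {γ : ℝ} {u w : ℕ → ℂ} (hu : SlowSeq γ u) (hw : SlowSeq γ w)
    (hw1 : ∀ n, ‖w n‖ ≤ 1) : SlowSeq γ (fun n => u n * w n) := by
  classical
  intro ε hε
  obtain ⟨S, A, h1, h2, h3, h4⟩ := hu (ε / 2) (by positivity)
  obtain ⟨S', A', h1', h2', h3', h4'⟩ := hw (ε / 2) (by positivity)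
  refine ⟨S ∪ S', fun σ => A σ * A' σ, ?_, ?_, ?_, ?_⟩
  · intro p hp
    rcases Finset.mem_union.mp hp with h | h
    · exact h1 p h
    · exact h1' p h
  · intro σ σ' h
    simp only
    rw [h2 σ σ' fun p hp => h p (Finset.mem_union_left _ hp),
      h2' σ σ' fun p hp => h p (Finset.mem_union_right _ hp)]
  · intro σ
    rw [norm_mul]
    exact mul_le_one₀ (h3 _) (norm_nonneg _) (h3' _)
  · filter_upwards [h4, h4'] with n h5 h6
    set a := A (fun p => ⌊p.1 * (n : ℝ) ^ p.2⌋)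
    set a' := A' (fun p => ⌊p.1 * (n : ℝ) ^ p.2⌋)
    have e1 : u n * w n - a * a' = (u n - a) * w n + a * (w n - a') := by ring
    rw [e1]
    refine (norm_add_le _ _).trans ?_
    rw [norm_mul, norm_mul]
    have h7 : ‖u n - a‖ * ‖w n‖ ≤ ε / 2 * 1 := mul_le_mul h5 (hw1 n) (norm_nonneg _) (by positivity)
    have h8 : ‖a‖ * ‖w n - a'‖ ≤ 1 * (ε / 2) :=
      mul_le_mul (h3 _) h6 (norm_nonneg _) zero_le_one
    linarith

theorem SlowSeq.const {γ : ℝ} (c : ℂ) (hc : ‖c‖ ≤ 1) : SlowSeq γ (fun _ => c) := by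
  intro ε hε
  refine ⟨∅, fun _ => c, by simp, by simp, fun _ => hc, ?_⟩
  filter_upwards with n
  simpa using hε.le

theorem SlowSeq.prod {γ : ℝ} {ι : Type*} (s : Finset ι) (u : ι → ℕ → ℂ)
    (hu : ∀ i ∈ s, SlowSeq γ (u i)) (hu1 : ∀ i ∈ s, ∀ n, ‖u i n‖ ≤ 1) :
    SlowSeq γ (fun n => ∏ i ∈ s, u i n) := by
  classical
  induction s using Finset.induction_on with
  | empty => simpa using SlowSeq.const (γ := γ) 1 (by simp)
  | insert a s ha ih =>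
    simp only [Finset.prod_insert ha]
    refine SlowSeq.mul (hu a (Finset.mem_insert_self _ _))
      (ih (fun i hi => hu i (Finset.mem_insert_of_mem hi))
        fun i hi => hu1 i (Finset.mem_insert_of_mem hi)) fun n => ?_
    rw [norm_prod]
    exact Finset.prod_le_one (fun _ _ => norm_nonneg _)
      fun i hi => hu1 i (Finset.mem_insert_of_mem hi) n

theorem SlowSeq.of_tendsto {γ : ℝ} {u : ℕ → ℂ} {c : ℂ} (hc : ‖c‖ ≤ 1)
    (h : Tendsto u atTop (𝓝 c)) : SlowSeq γ u := by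
  intro ε hε
  refine ⟨∅, fun _ => c, by simp, by simp, fun _ => hc, ?_⟩
  have h1 := Metric.tendsto_atTop'.mp h ε hε
  obtain ⟨N, hN⟩ := h1
  filter_upwards [eventually_gt_atTop N] with n hn
  have := (hN n hn).le
  rwa [dist_eq_norm] at this

theorem SlowSeq.floor {γ : ℝ} (κ τ : ℝ) (hτ : 0 < τ ∧ τ < γ) (φ : ℤ → ℂ) (hφ : ∀ z, ‖φ z‖ ≤ 1)
    (u : ℕ → ℂ) (hu : ∀ n : ℕ, u n = φ ⌊κ * (n : ℝ) ^ τ⌋) : SlowSeq γ u := by
  intro ε hε
  refine ⟨{(κ, τ)}, fun σ => φ (σ (κ, τ)), by simpa using hτ, ?_, fun _ => hφ _, ?_⟩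
  · intro σ σ' h
    simp only
    rw [h (κ, τ) (by simp)]
  · filter_upwards with n
    rw [hu n, sub_self, norm_zero]
    exact hε.le

theorem SlowSeq.e_pow {γ : ℝ} (κ τ : ℝ) (hτ : κ = 0 ∨ (0 < τ ∧ τ < γ)) :
    SlowSeq γ (fun n => e (κ * (n : ℝ) ^ τ)) := by
  rcases hτ with h0 | hτ
  · subst h0
    simpa [e_zero] using SlowSeq.const (γ := γ) 1 (by simp)
  intro ε hε
  obtain ⟨M, hM⟩ := exists_nat_gt (max (2 * Real.pi / ε) 1)
  have hM1 : (1 : ℝ) < M := (le_max_right _ _).trans_lt hM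
  have hM0 : (0 : ℝ) < M := by linarith
  have hM2 : 2 * Real.pi / M ≤ ε := by
    have := (le_max_left _ _).trans_lt hM
    rw [div_lt_iff₀ hε] at this
    rw [div_le_iff₀ hM0]
    linarith
  refine ⟨{(M * κ, τ)}, fun σ => e ((σ (M * κ, τ) : ℝ) / M), by simpa using hτ, ?_,
    fun _ => (norm_e _).le, ?_⟩
  · intro σ σ' h
    simp only
    rw [h (M * κ, τ) (by simp)]
  · filter_upwards with n
    refine (norm_e_sub_e _ _).trans ?_
    have h1 := Int.floor_le (M * κ * (n : ℝ) ^ τ)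
    have h2 := Int.lt_floor_add_one (M * κ * (n : ℝ) ^ τ)
    have h3 : |κ * (n : ℝ) ^ τ - (⌊M * κ * (n : ℝ) ^ τ⌋ : ℝ) / M| ≤ 1 / M := by
      have e1 : κ * (n : ℝ) ^ τ - (⌊M * κ * (n : ℝ) ^ τ⌋ : ℝ) / M =
          (M * κ * (n : ℝ) ^ τ - ⌊M * κ * (n : ℝ) ^ τ⌋) / M := by
        field_simp
      rw [e1, abs_div, abs_of_pos hM0]
      refine div_le_div_of_nonneg_right ?_ hM0.le
      rw [abs_le]
      constructor <;> linarith
    calc 2 * Real.pi * |κ * (n : ℝ) ^ τ - (⌊M * κ * (n : ℝ) ^ τ⌋ : ℝ) / M| ≤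
        2 * Real.pi * (1 / M) := mul_le_mul_of_nonneg_left h3 (by positivity)
      _ = 2 * Real.pi / M := by ring
      _ ≤ ε := hM2

/-- slow times fast -/
theorem slow_main (HS : SlowHyp) (κ γ : ℝ) (hκ : 0 < κ) (hγ : 0 < γ) (hγ1 : γ < 1) (u : ℕ → ℂ)
    (hu : SlowSeq γ u) (G : ℕ → ℂ) (hG1 : ∀ a, ‖G a‖ ≤ 1)
    (hG : ∀ ε > 0, ∃ L : ℕ, 1 ≤ L ∧ ∀ a₀ : ℕ, ‖avg L (fun i => G (a₀ + i))‖ ≤ ε) :
    Tendsto (fun N => avg N (fun n => u n * G ⌊κ * (n : ℝ) ^ γ⌋₊)) atTop (𝓝 0) := by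
  classical
  refine tendsto_avg_of_approx _ fun ε hε => ?_
  obtain ⟨S, A, h1, h2, h3, h4⟩ := hu ε hε
  refine ⟨fun n => A (fun p => ⌊p.1 * (n : ℝ) ^ p.2⌋) * G ⌊κ * (n : ℝ) ^ γ⌋₊, ?_, ?_⟩
  · filter_upwards [h4] with n h5
    rw [← sub_mul, norm_mul]
    calc _ ≤ ε * 1 := mul_le_mul h5 (hG1 _) (norm_nonneg _) hε.le
      _ = ε := mul_one _
  · set ext : ((p : {p // p ∈ S}) → ℤ) → ℝ × ℝ → ℤ :=
      fun σ p => if h : p ∈ S then σ ⟨p, h⟩ else 0 with hext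
    have h5 := HS {p // p ∈ S} κ γ hκ hγ hγ1 (fun p => p.1.1) (fun p => p.1.2)
      (fun p => h1 p.1 p.2) (fun σ b => A (ext σ) * G b)
      (fun σ b => by rw [norm_mul]; exact mul_le_one₀ (h3 _) (norm_nonneg _) (hG1 _))
      (fun ε hε => by
        obtain ⟨L, hL1, hL⟩ := hG ε hε
        refine ⟨L, hL1, fun σ b0 => ?_⟩
        have h6 : (L : ℝ)⁻¹ • ∑ i ∈ range L, A (ext σ) * G (b0 + i) =
            A (ext σ) * avg L (fun i => G (b0 + i)) := by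
          rw [← Finset.mul_sum]
          simp only [avg, Complex.real_smul, Complex.ofReal_inv, Complex.ofReal_natCast]
          ring
        rw [h6, norm_mul]
        calc _ ≤ 1 * ε := mul_le_mul (h3 _) (hL b0) (norm_nonneg _) zero_le_one
          _ = ε := one_mul _)
    rw [tendsto_zero_iff_norm_tendsto_zero]
    refine h5.congr fun N => ?_
    congr 1
    simp only [avg, Complex.real_smul, Complex.ofReal_inv, Complex.ofReal_natCast]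
    rw [div_eq_inv_mul]
    congr 1
    refine Finset.sum_congr rfl fun n _ => ?_
    congr 1
    apply h2
    intro p hp
    simp only [hext, hp, dif_pos]

theorem frac_pos (b : ℝ) (hb : PosNonInt b) : 0 < b - ⌊b⌋₊ ∧ b - ⌊b⌋₊ < 1 := by
  have h1 := Nat.floor_le hb.1.le
  have h2 := Nat.lt_floor_add_one b
  refine ⟨?_, by linarith⟩
  rcases h1.lt_or_eq with h | h
  · linarith
  · exfalso
    exact hb.2 (⌊b⌋₊ : ℕ) (by push_cast; exact h.symm)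

theorem Qf_eq_zero (b : ℝ) (l : List ℕ) (d : ℕ) (hl : l.length = 2 * d) (hd : ⌊b⌋₊ < d) (n : ℕ) :
    Qf b l n = 0 := by
  simp only [Qf]
  rw [List.sum_eq_zero]
  intro x hx
  rw [List.mem_map] at hx
  obtain ⟨p, hp, rfl⟩ := hx
  rw [if_neg]
  rintro ⟨h1, h2⟩
  have := (mem_prs hp).2.2
  omega

/-- the phase is slow -/
theorem slow_phase {γ : ℝ} (t b : ℝ) (hb : PosNonInt b) (l : List ℕ) (d : ℕ)
    (hl : l.length = 2 * d) (hpos : ∀ h ∈ l, 1 ≤ h)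
    (hbd : ⌊b⌋₊ < d ∨ (⌊b⌋₊ = d ∧ b - ⌊b⌋₊ < γ)) :
    SlowSeq γ (fun n => e (t * (Qf b l n : ℤ))) := by
  rcases hbd with h | ⟨h, h'⟩
  · simp only [Qf_eq_zero b l d hl h, Int.cast_zero, mul_zero, e_zero]
    exact SlowSeq.const 1 (by simp)
  · set M := d.factorial * l.prod with hM
    have hlp : 0 < l.prod := List.prod_pos fun h hh => hpos h hh
    have hM1 : 1 ≤ M := Nat.mul_pos (Nat.factorial_pos d) hlp
    refine SlowSeq.floor (2 * M * lead b) (b - ⌊b⌋₊) ⟨(frac_pos b hb).1, h'⟩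
      (fun z => e (t * (Qn ⌊b⌋₊ l M z.toNat : ℕ))) (fun _ => (norm_e _).le) _ fun n => ?_
    rw [Qf_eq b hb.1 l d M h.le hM1 dvd_rfl n]
    simp only [xb]
    rw [← mul_assoc, Int.floor_toNat]
    push_cast
    rfl

/-- averages of a non-trivial character -/
theorem lin_avg (θ : ℝ) (hθ : e θ ≠ 1) (ε : ℝ) (hε : 0 < ε) :
    ∃ L : ℕ, 1 ≤ L ∧ ∀ a₀ : ℕ, ‖avg L (fun i => e (θ * ((a₀ + i : ℕ) : ℝ)))‖ ≤ ε := by
  obtain ⟨L, h1, h2⟩ := ((eventually_ge_atTop 1).and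
    ((geom_tendsto θ hθ).eventually_lt_const hε)).exists
  refine ⟨L, h1, fun a₀ => ?_⟩
  have h3 : (fun i : ℕ => e (θ * ((a₀ + i : ℕ) : ℝ))) = fun i : ℕ => e (θ * a₀) * e (θ * i) := by
    funext i
    rw [← e_add]
    congr 1
    push_cast
    ring
  rw [h3, avg_mul_left, norm_mul, norm_e, one_mul]
  exact h2.le

theorem slow_times_pow (HS : SlowHyp) (κ τ : ℝ) (hκ : κ ≠ 0) (hτ : 0 < τ) (hτ1 : τ < 1)
    (u : ℕ → ℂ) (hu : SlowSeq τ u) (hu1 : ∀ n, ‖u n‖ ≤ 1) :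
    Tendsto (fun N => avg N (fun n => u n * e (κ * (n : ℝ) ^ τ))) atTop (𝓝 0) := by
  refine tendsto_avg_of_approx _ fun ε hε => ?_
  obtain ⟨M, hM⟩ := exists_nat_gt (max (2 * Real.pi / ε) 1)
  have hM1 : (1 : ℝ) < M := (le_max_right _ _).trans_lt hM
  have hM0 : (0 : ℝ) < M := by linarith
  have hM2 : 2 * Real.pi / M ≤ ε := by
    have := (le_max_left _ _).trans_lt hM
    rw [div_lt_iff₀ hε] at this
    rw [div_le_iff₀ hM0]
    linarith
  have hκa : 0 < |κ| := abs_pos.mpr hκ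
  set s : ℝ := κ / |κ| with hs
  have hs1 : |s| = 1 := by rw [hs, abs_div, abs_abs, div_self hκa.ne']
  have hsκ : s * |κ| = κ := by rw [hs]; field_simp
  have hne : e (s / M) ≠ 1 := by
    intro h
    obtain ⟨m, hm⟩ := (e_eq_one_iff _).mp h
    have h1 : |(m : ℝ)| = 1 / M := by rw [← hm, abs_div, hs1, abs_of_pos hM0]
    have h2 : |(m : ℝ)| < 1 := by
      rw [h1, div_lt_one hM0]; exact hM1
    have h3 : m = 0 := by
      have : |m| < 1 := by exact_mod_cast h2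
      exact Int.abs_lt_one_iff.mp this
    rw [h3] at h1
    simp only [Int.cast_zero, abs_zero] at h1
    have : (0 : ℝ) < 1 / M := by positivity
    linarith
  refine ⟨fun n => u n * e (s / M * (⌊M * |κ| * (n : ℝ) ^ τ⌋₊ : ℕ)), ?_, ?_⟩
  · filter_upwards with n
    rw [← mul_sub, norm_mul]
    have h0 : 0 ≤ M * |κ| * (n : ℝ) ^ τ := by positivity
    have h1 := Nat.floor_le h0
    have h2 := Nat.lt_floor_add_one (M * |κ| * (n : ℝ) ^ τ)
    have h3 : |κ * (n : ℝ) ^ τ - s / M * (⌊M * |κ| * (n : ℝ) ^ τ⌋₊ : ℕ)| ≤ 1 / M := by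
      have e1 : κ * (n : ℝ) ^ τ - s / M * (⌊M * |κ| * (n : ℝ) ^ τ⌋₊ : ℕ) =
          s * ((M * |κ| * (n : ℝ) ^ τ - (⌊M * |κ| * (n : ℝ) ^ τ⌋₊ : ℕ)) / M) := by
        have : κ * (n : ℝ) ^ τ = s * (M * |κ| * (n : ℝ) ^ τ / M) := by
          conv_lhs => rw [← hsκ]
          field_simp
        rw [this]
        ring
      rw [e1, abs_mul, hs1, one_mul, abs_div, abs_of_pos hM0]
      refine div_le_div_of_nonneg_right ?_ hM0.le
      rw [abs_le]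
      constructor <;> linarith
    calc ‖u n‖ * ‖e (κ * (n : ℝ) ^ τ) - e (s / M * (⌊M * |κ| * (n : ℝ) ^ τ⌋₊ : ℕ))‖ ≤
        1 * (2 * Real.pi * (1 / M)) := by
          refine mul_le_mul (hu1 n) ?_ (norm_nonneg _) zero_le_one
          exact (norm_e_sub_e _ _).trans (mul_le_mul_of_nonneg_left h3 (by positivity))
      _ = 2 * Real.pi / M := by ring
      _ ≤ ε := hM2
  · exact slow_main HS (M * |κ|) τ (by positivity) hτ hτ1 u hu
      (fun a => e (s / M * (a : ℕ))) (fun _ => (norm_e _).le)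
      (fun ε hε => lin_avg (s / M) hne ε hε)

theorem slow_times_quad (HS : SlowHyp) (t c κ : ℝ) (ht : Irrational t) (hc : PosNonInt c)
    (l : List ℕ) (hl : l.length = 2 * ⌊c⌋₊) (hpos : ∀ h ∈ l, 1 ≤ h)
    (u : ℕ → ℂ) (hu : SlowSeq (c - ⌊c⌋₊) u) (hu1 : ∀ n, ‖u n‖ ≤ 1) :
    Tendsto (fun N => avg N (fun n => u n * (e (κ * (n : ℝ) ^ (c - ⌊c⌋₊)) *
      e (t * (Qf c l n : ℤ))))) atTop (𝓝 0) := by
  obtain ⟨hγ, hγ1⟩ := frac_pos c hc
  have hlead := lead_pos c hc.1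
  refine tendsto_avg_of_approx _ fun ε hε => ?_
  obtain ⟨k, hk⟩ := exists_nat_gt (max (2 * Real.pi * |κ| / (2 * lead c * ε)) 1)
  have hk1 : (1 : ℝ) < k := (le_max_right _ _).trans_lt hk
  have hk2 := (le_max_left _ _).trans_lt hk
  set M0 := ⌊c⌋₊.factorial * l.prod with hM0
  have hlp : 0 < l.prod := List.prod_pos fun h hh => hpos h hh
  have hM01 : 1 ≤ M0 := Nat.mul_pos (Nat.factorial_pos _) hlp
  set M := k * M0 with hM
  have hk1' : 1 ≤ k := by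
    have : (1 : ℝ) < k := hk1
    exact_mod_cast this.le
  have hM1 : 1 ≤ M := Nat.mul_pos (by omega) (by omega)
  have hMr : (0 : ℝ) < M := by exact_mod_cast hM1
  have hkM : (k : ℝ) ≤ M := by
    rw [hM]; push_cast
    have : (1 : ℝ) ≤ M0 := by exact_mod_cast hM01
    nlinarith
  have hdvd : ⌊c⌋₊.factorial * l.prod ∣ M := Dvd.intro_left k rfl
  set lam : ℝ := κ / (2 * M * lead c) with hlam
  have hlamε : 2 * Real.pi * |lam| ≤ ε := by
    rw [hlam, abs_div, abs_of_pos (show 0 < 2 * M * lead c by positivity)]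
    rw [div_lt_iff₀ (by positivity)] at hk2
    rw [← mul_div_assoc, div_le_iff₀ (by positivity)]
    have : (k : ℝ) * (2 * lead c * ε) ≤ M * (2 * lead c * ε) :=
      mul_le_mul_of_nonneg_right hkM (by positivity)
    linarith
  refine ⟨fun n => u n * e (lam * (⌊2 * M * lead c * (n : ℝ) ^ (c - ⌊c⌋₊)⌋₊ : ℕ) +
    t * (Qn ⌊c⌋₊ l M ⌊2 * M * lead c * (n : ℝ) ^ (c - ⌊c⌋₊)⌋₊ : ℕ)), ?_, ?_⟩
  · filter_upwards with n
    have h0 : 0 ≤ 2 * M * lead c * (n : ℝ) ^ (c - ⌊c⌋₊) := by positivity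
    have h1 := Nat.floor_le h0
    have h2 := Nat.lt_floor_add_one (2 * M * lead c * (n : ℝ) ^ (c - ⌊c⌋₊))
    have hQ := Qf_eq c hc.1 l ⌊c⌋₊ M le_rfl hM1 hdvd n
    have hx : 2 * (M : ℝ) * xb c n = 2 * M * lead c * (n : ℝ) ^ (c - ⌊c⌋₊) := by
      simp only [xb]; ring
    rw [hx] at hQ
    rw [← mul_sub, norm_mul, hQ, e_add]
    push_cast
    rw [← sub_mul, norm_mul, norm_e, mul_one]
    have h3 : |κ * (n : ℝ) ^ (c - ⌊c⌋₊) -
        lam * (⌊2 * M * lead c * (n : ℝ) ^ (c - ⌊c⌋₊)⌋₊ : ℕ)| ≤ |lam| := by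
      have e1 : κ * (n : ℝ) ^ (c - ⌊c⌋₊) -
          lam * (⌊2 * M * lead c * (n : ℝ) ^ (c - ⌊c⌋₊)⌋₊ : ℕ) =
          lam * (2 * M * lead c * (n : ℝ) ^ (c - ⌊c⌋₊) -
            (⌊2 * M * lead c * (n : ℝ) ^ (c - ⌊c⌋₊)⌋₊ : ℕ)) := by
        rw [hlam]
        field_simp
      rw [e1, abs_mul]
      have h4 : |2 * M * lead c * (n : ℝ) ^ (c - ⌊c⌋₊) -
            (⌊2 * M * lead c * (n : ℝ) ^ (c - ⌊c⌋₊)⌋₊ : ℕ)| ≤ 1 := by
        rw [abs_le]
        constructor <;> linarith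
      calc _ ≤ |lam| * 1 := mul_le_mul_of_nonneg_left h4 (abs_nonneg _)
        _ = |lam| := mul_one _
    calc _ ≤ 1 * (2 * Real.pi * |lam|) := by
          refine mul_le_mul (hu1 n) ?_ (norm_nonneg _) zero_le_one
          exact (norm_e_sub_e _ _).trans (mul_le_mul_of_nonneg_left h3 (by positivity))
      _ ≤ ε := by rw [one_mul]; exact hlamε
  · exact slow_main HS (2 * M * lead c) (c - ⌊c⌋₊) (by positivity) hγ hγ1 u hu
      (fun a => e (lam * (a : ℕ) + t * (Qn ⌊c⌋₊ l M a : ℕ))) (fun _ => (norm_e _).le)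
      (fun ε hε => quad_avg t lam ht ⌊c⌋₊ l hl hpos M hM1 hdvd ε hε)

end Pool.Agent.JE.H44
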