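import Pool.Agent.Helper44.JE.Exp

/-!
MP_ce5406_an, block T11: weights which are continuous functions of fractional parts.
-/

open Filter Topology Finset
open scoped BigOperators ComplexConjugate

namespace Pool.Agent.JE.H44

/-- the exponents which occur in the Taylor expansions -/
noncomputable def Ts (B : Finset ℝ) : Finset ℝ :=
  B.biUnion (fun b => (range (⌊b⌋₊ + 1)).image (fun j : ℕ => b - j))

theorem mem_Ts {B : Finset ℝ} (hB : ∀ b ∈ B, PosNonInt b) (τ : ℝ) (hτ : τ ∈ Ts B) :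
    PosNonInt τ := by
  classical
  simp only [Ts, mem_biUnion, mem_image, mem_range] at hτ
  obtain ⟨b, hb, j, hj, rfl⟩ := hτ
  have h1 := (frac_pos b (hB b hb)).1
  have h2 : (j : ℝ) ≤ ⌊b⌋₊ := by exact_mod_cast Nat.lt_succ_iff.mp hj
  refine ⟨by linarith, fun m hm => (hB b hb).2 (m + j) ?_⟩
  push_cast
  linarith

/-- the family of phases -/
def IsFam (B : Finset ℝ) (ψ : ℕ → ℝ) : Prop := ∃ (κ : ℝ → ℝ) (c₀ : ℝ),
  Tendsto (fun n : ℕ => ψ n - ∑ τ ∈ Ts B, κ τ * (n : ℝ) ^ τ) atTop (𝓝 c₀)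

theorem isFam_zero (B : Finset ℝ) : IsFam B (fun _ => 0) :=
  ⟨fun _ => 0, 0, by simp⟩

theorem isFam_add (HT : TaylorHyp) (B : Finset ℝ) (hB : ∀ b ∈ B, PosNonInt b) (ψ : ℕ → ℝ)
    (hψ : IsFam B ψ) (b : ℝ) (hb : b ∈ B) (u : ℕ) (k : ℤ) :
    IsFam B (fun n => ψ n + k * ((n + u : ℕ) : ℝ) ^ b) := by
  classical
  obtain ⟨κ, c₀, h⟩ := hψ
  set cf : ℕ → ℝ := fun j => (∏ i ∈ range j, (b - i)) / (j.factorial : ℝ) * (u : ℝ) ^ j with hcf
  have h1 : Tendsto (fun n : ℕ => ((n + u : ℕ) : ℝ) ^ b -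
      ∑ j ∈ range (⌊b⌋₊ + 1), cf j * (n : ℝ) ^ (b - j)) atTop (𝓝 0) := by
    rw [Metric.tendsto_atTop']
    intro ε hε
    obtain ⟨N, hN⟩ := eventually_atTop.mp (HT b (hB b hb) u (ε / 2) (by positivity))
    refine ⟨N, fun n hn => ?_⟩
    have h2 := hN n hn.le u le_rfl
    rw [dist_zero_right, Real.norm_eq_abs]
    have h3 : ∑ j ∈ range (⌊b⌋₊ + 1), cf j * (n : ℝ) ^ (b - j) =
        ∑ j ∈ range (⌊b⌋₊ + 1), (∏ i ∈ range j, (b - i)) / (j.factorial : ℝ) *
        (n : ℝ) ^ (b - j) * (u : ℝ) ^ j := by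
      refine Finset.sum_congr rfl fun j _ => ?_
      simp only [hcf]
      ring
    rw [h3]
    linarith
  refine ⟨fun τ => κ τ + k * ∑ j ∈ range (⌊b⌋₊ + 1), if τ = b - j then cf j else 0, c₀, ?_⟩
  have h2 : ∀ n : ℕ, ∑ τ ∈ Ts B, (κ τ + k * ∑ j ∈ range (⌊b⌋₊ + 1),
      if τ = b - j then cf j else 0) * (n : ℝ) ^ τ =
      ∑ τ ∈ Ts B, κ τ * (n : ℝ) ^ τ + k * ∑ j ∈ range (⌊b⌋₊ + 1), cf j * (n : ℝ) ^ (b - j) := by
    intro n
    simp only [add_mul, Finset.sum_add_distrib]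
    congr 1
    simp only [mul_assoc, Finset.sum_mul]
    rw [← Finset.mul_sum, Finset.sum_comm]
    congr 1
    refine Finset.sum_congr rfl fun j hj => ?_
    simp only [ite_mul, zero_mul]
    rw [Finset.sum_ite_eq' (Ts B) (b - j)]
    rw [if_pos]
    simp only [Ts, mem_biUnion, mem_image]
    exact ⟨b, hb, j, hj, rfl⟩
  have h3 := h.add (h1.const_mul (k : ℝ))
  rw [mul_zero, add_zero] at h3
  refine h3.congr fun n => ?_
  rw [h2 n]
  ring

/-- Good weights. -/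
def Good (B : Finset ℝ) (Λ z : ℕ → ℂ) : Prop := ∀ ψ, IsFam B ψ →
  Tendsto (fun N => avg N (fun n => z n * (e (ψ n) * Λ n))) atTop (𝓝 0)

theorem good_circle (HT : TaylorHyp) (B : Finset ℝ) (hB : ∀ b ∈ B, PosNonInt b) (Λ : ℕ → ℂ)
    (hΛ : ∀ n, ‖Λ n‖ = 1) (z : ℕ → ℂ) (hz : ∀ n, ‖z n‖ ≤ 1) (hG : Good B Λ z)
    (g : C(UnitAddCircle, ℂ)) (b : ℝ) (hb : b ∈ B) (u : ℕ) :
    Good B Λ (fun n => z n * g ((((n + u : ℕ) : ℝ) ^ b : ℝ) : UnitAddCircle)) := by
  have hspan : ∀ p ∈ Submodule.span ℂ (Set.range (@fourier 1)),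
      Good B Λ (fun n => z n * (p : C(UnitAddCircle, ℂ)) ((((n + u : ℕ) : ℝ) ^ b : ℝ) : UnitAddCircle)) := by
    intro p hp
    induction hp using Submodule.span_induction with
    | mem x hx =>
      obtain ⟨k, rfl⟩ := hx
      intro ψ hψ
      have h1 := hG _ (isFam_add HT B hB ψ hψ b hb u k)
      refine h1.congr fun N => ?_
      congr 1
      funext n
      beta_reduce
      rw [fourier_coe_apply]
      have h2 : Complex.exp (2 * Real.pi * Complex.I * k * (((n + u : ℕ) : ℝ) ^ b : ℝ) / (1 : ℝ)) =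
          e (k * ((n + u : ℕ) : ℝ) ^ b) := by
        simp only [e]
        congr 1
        push_cast
        ring
      rw [h2, add_comm (ψ n), e_add]
      ring
    | zero =>
      intro ψ _
      simp [avg]
    | add x y _ _ hx hy =>
      intro ψ hψ
      have h1 := (hx ψ hψ).add (hy ψ hψ)
      rw [add_zero] at h1
      refine h1.congr fun N => ?_
      rw [← avg_add]
      congr 1
      funext n
      simp only [ContinuousMap.add_apply]
      ring
    | smul a x _ hx =>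
      intro ψ hψ
      have h1 := (hx ψ hψ).const_mul a
      rw [mul_zero] at h1
      refine h1.congr fun N => ?_
      rw [← avg_mul_left]
      congr 1
      funext n
      simp only [ContinuousMap.smul_apply, smul_eq_mul]
      ring
  intro ψ hψ
  refine tendsto_avg_of_approx _ fun ε hε => ?_
  have h1 : g ∈ (Submodule.span ℂ (Set.range (@fourier 1))).topologicalClosure := by
    have := @span_fourier_closure_eq_top 1 _
    rw [this]
    trivial
  rw [← SetLike.mem_coe, Submodule.topologicalClosure_coe, Metric.mem_closure_iff] at h1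
  obtain ⟨p, hp, hgp⟩ := h1 ε hε
  refine ⟨_, ?_, hspan p hp ψ hψ⟩
  filter_upwards with n
  rw [← sub_mul, ← mul_sub, norm_mul, norm_mul, norm_mul, norm_e, hΛ, mul_one, mul_one]
  have h2 : ‖g ((((n + u : ℕ) : ℝ) ^ b : ℝ) : UnitAddCircle) -
      p ((((n + u : ℕ) : ℝ) ^ b : ℝ) : UnitAddCircle)‖ ≤ ε := by
    rw [← dist_eq_norm]
    exact (ContinuousMap.dist_apply_le_dist _).trans hgp.le
  calc _ ≤ 1 * ε := mul_le_mul (hz n) h2 (norm_nonneg _) zero_le_one
    _ = ε := one_mul _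

theorem good_per (HT : TaylorHyp) (B : Finset ℝ) (hB : ∀ b ∈ B, PosNonInt b) (Λ : ℕ → ℂ)
    (hΛ : ∀ n, ‖Λ n‖ = 1) (z : ℕ → ℂ) (hz : ∀ n, ‖z n‖ ≤ 1) (hG : Good B Λ z)
    (f : ℝ → ℂ) (hf : Continuous f) (hf1 : Function.Periodic f 1) (b : ℝ) (hb : b ∈ B) (u : ℕ) :
    Good B Λ (fun n => z n * f (((n + u : ℕ) : ℝ) ^ b)) := by
  set g : C(UnitAddCircle, ℂ) := ⟨hf1.lift, continuous_coinduced_dom.mpr hf⟩ with hg
  have h1 := good_circle HT B hB Λ hΛ z hz hG g b hb u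
  have h2 : ∀ x : ℝ, g (x : UnitAddCircle) = f x := fun x => hf1.lift_coe x
  simpa only [h2] using h1

theorem good_dvs (HT : TaylorHyp) (B : Finset ℝ) (hB : ∀ b ∈ B, PosNonInt b) (Λ : ℕ → ℂ)
    (hΛ : ∀ n, ‖Λ n‖ = 1) (l : List ℕ) : ∀ (z : ℕ → ℂ), (∀ n, ‖z n‖ ≤ 1) → Good B Λ z →
    ∀ (f : ℝ → ℂ), Continuous f → Function.Periodic f 1 → (∀ x, ‖f x‖ ≤ 1) →
    ∀ b ∈ B, ∀ u : ℕ,
      Good B Λ (fun n => z n * dvs l (fun m => f ((m : ℝ) ^ b)) (n + u)) := by
  induction l with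
  | nil =>
    intro z hz hG f hf hf1 _ b hb u
    exact good_per HT B hB Λ hΛ z hz hG f hf hf1 b hb u
  | cons h l ih =>
    intro z hz hG f hf hf1 hfb b hb u
    have h1 := ih z hz hG f hf hf1 hfb b hb (u + h)
    have h2 := ih _ (fun n => by
      rw [norm_mul]
      exact mul_le_one₀ (hz n) (norm_nonneg _) (dvs_norm_le l _ (fun m => hfb _) _)) h1
      (fun x => conj (f x)) (Complex.continuous_conj.comp hf) (fun x => by simp only [hf1 x])
      (fun x => by rw [RCLike.norm_conj]; exact hfb x) b hb u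
    have h3 : (fun n => z n * dvs l (fun m => f ((m : ℝ) ^ b)) (n + (u + h)) *
        dvs l (fun m => conj (f ((m : ℝ) ^ b))) (n + u)) =
        fun n => z n * dvs (h :: l) (fun m => f ((m : ℝ) ^ b)) (n + u) := by
      funext n
      rw [dvs_conj]
      simp only [dvs]
      rw [show n + u + h = n + (u + h) by ring]
      ring
    rw [h3] at h2
    exact h2

theorem good_prod (HT : TaylorHyp) (B : Finset ℝ) (hB : ∀ b ∈ B, PosNonInt b) (Λ : ℕ → ℂ)
    (hΛ : ∀ n, ‖Λ n‖ = 1) (l : List ℕ) (hG : Good B Λ (fun _ => 1)) (f : ℝ → ℝ → ℂ)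
    (hf : ∀ b ∈ B, Continuous (f b)) (hf1 : ∀ b ∈ B, Function.Periodic (f b) 1)
    (hfb : ∀ b ∈ B, ∀ x, ‖f b x‖ ≤ 1) (B' : Finset ℝ) (hB' : B' ⊆ B) :
    Good B Λ (fun n => ∏ b ∈ B', dvs l (fun m => f b ((m : ℝ) ^ b)) n) := by
  classical
  induction B' using Finset.induction_on with
  | empty => simpa using hG
  | insert a s ha ih =>
    have h1 : s ⊆ B := (Finset.subset_insert _ _).trans hB'
    have haB : a ∈ B := hB' (Finset.mem_insert_self _ _)
    have h2 := good_dvs HT B hB Λ hΛ l _ (fun n => by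
      rw [norm_prod]
      exact Finset.prod_le_one (fun _ _ => norm_nonneg _)
        fun b hb => dvs_norm_le l _ (fun m => hfb b (h1 hb) _) _) (ih h1)
      (f a) (hf a haB) (hf1 a haB) (hfb a haB) a haB 0
    simp only [add_zero] at h2
    have h3 : (fun n => ∏ b ∈ insert a s, dvs l (fun m => f b ((m : ℝ) ^ b)) n) =
        fun n => (∏ b ∈ s, dvs l (fun m => f b ((m : ℝ) ^ b)) n) *
          dvs l (fun m => f a ((m : ℝ) ^ a)) n := by
      funext n
      rw [Finset.prod_insert ha, mul_comm]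
    rw [h3]
    exact h2

end Pool.Agent.JE.H44
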