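import Pool.Agent.Helper65.JE.Defs

/-!
MP_ce5406_an, block T11: scalar van der Corput inequalities.
-/

open Filter Topology Finset
open scoped BigOperators ComplexConjugate

namespace Pool.Agent.JE.H44

/-- Locally null sequences: averages over short windows are small at most places. -/
def LocNull (v : ℕ → ℂ) : Prop :=
  ∀ ε > 0, ∃ L0 : ℕ, ∀ L ≥ L0, ∀ᶠ N : ℕ in atTop,
    ravg N (fun n => ‖avg L (fun u => v (n + u))‖) ≤ ε

theorem ravg_nonneg (N : ℕ) (a : ℕ → ℝ) (h : ∀ n, 0 ≤ a n) : 0 ≤ ravg N a :=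
  div_nonneg (Finset.sum_nonneg fun n _ => h n) (Nat.cast_nonneg N)

theorem ravg_mono (N : ℕ) (a b : ℕ → ℝ) (h : ∀ n, a n ≤ b n) : ravg N a ≤ ravg N b :=
  div_le_div_of_nonneg_right (Finset.sum_le_sum fun n _ => h n) (Nat.cast_nonneg N)

theorem ravg_add (N : ℕ) (a b : ℕ → ℝ) : ravg N (fun n => a n + b n) = ravg N a + ravg N b := by
  simp only [ravg, Finset.sum_add_distrib, add_div]

theorem ravg_sum {ι : Type*} (s : Finset ι) (N : ℕ) (a : ι → ℕ → ℝ) :
    ravg N (fun n => ∑ i ∈ s, a i n) = ∑ i ∈ s, ravg N (a i) := by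
  simp only [ravg]
  rw [Finset.sum_comm, Finset.sum_div]

theorem ravg_mul_left (N : ℕ) (c : ℝ) (a : ℕ → ℝ) :
    ravg N (fun n => c * a n) = c * ravg N a := by
  simp only [ravg]
  rw [← Finset.mul_sum, mul_div_assoc]

theorem ravg_const_le (N : ℕ) (c : ℝ) (hc : 0 ≤ c) : ravg N (fun _ => c) ≤ c := by
  simp only [ravg, Finset.sum_const, card_range, nsmul_eq_mul]
  rcases Nat.eq_zero_or_pos N with rfl | hN
  · simpa using hc
  · have : (0 : ℝ) < N := by exact_mod_cast hN
    rw [mul_comm, mul_div_assoc, div_self this.ne', mul_one]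

theorem ravg_le_of_le (N : ℕ) (a : ℕ → ℝ) (c : ℝ) (hc : 0 ≤ c) (h : ∀ n, a n ≤ c) :
    ravg N a ≤ c := (ravg_mono N a _ h).trans (ravg_const_le N c hc)

theorem norm_avg_le (N : ℕ) (a : ℕ → ℂ) : ‖avg N a‖ ≤ ravg N (fun n => ‖a n‖) := by
  simp only [avg, ravg, norm_div, Complex.norm_natCast]
  exact div_le_div_of_nonneg_right (norm_sum_le _ _) (Nat.cast_nonneg N)

theorem norm_avg_le_one (N : ℕ) (a : ℕ → ℂ) (h : ∀ n, ‖a n‖ ≤ 1) : ‖avg N a‖ ≤ 1 :=
  (norm_avg_le N a).trans (ravg_le_of_le N _ 1 zero_le_one h)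

theorem avg_add (N : ℕ) (a b : ℕ → ℂ) : avg N (fun n => a n + b n) = avg N a + avg N b := by
  simp only [avg, Finset.sum_add_distrib, add_div]

theorem avg_sub (N : ℕ) (a b : ℕ → ℂ) : avg N (fun n => a n - b n) = avg N a - avg N b := by
  simp only [avg, Finset.sum_sub_distrib, sub_div]

theorem avg_sum {ι : Type*} (s : Finset ι) (N : ℕ) (a : ι → ℕ → ℂ) :
    avg N (fun n => ∑ i ∈ s, a i n) = ∑ i ∈ s, avg N (a i) := by
  simp only [avg]
  rw [Finset.sum_comm, Finset.sum_div]

theorem avg_mul_left (N : ℕ) (c : ℂ) (a : ℕ → ℂ) :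
    avg N (fun n => c * a n) = c * avg N a := by
  simp only [avg]
  rw [← Finset.mul_sum, mul_div_assoc]

/-- Shifting a sum of bounded terms. -/
theorem shift_sum (g : ℕ → ℂ) (hg : ∀ n, ‖g n‖ ≤ 1) (N k : ℕ) :
    ‖∑ n ∈ range N, g (n + k) - ∑ n ∈ range N, g n‖ ≤ 2 * k := by
  induction k with
  | zero => simp
  | succ k ih =>
    have h1 : ∑ n ∈ range N, g (n + (k + 1)) - ∑ n ∈ range N, g (n + k) = g (N + k) - g k := by
      have h2 := Finset.sum_range_succ (fun n => g (n + k)) N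
      have h3 := Finset.sum_range_succ' (fun n => g (n + k)) N
      have h4 : ∀ n, n + 1 + k = n + (k + 1) := fun n => by ring
      simp only [h4, zero_add] at h3
      rw [h2] at h3
      linear_combination -h3
    have h5 : ∑ n ∈ range N, g (n + (k + 1)) - ∑ n ∈ range N, g n =
        (∑ n ∈ range N, g (n + (k + 1)) - ∑ n ∈ range N, g (n + k)) +
        (∑ n ∈ range N, g (n + k) - ∑ n ∈ range N, g n) := by ring
    rw [h5]
    have h6 : ‖g (N + k) - g k‖ ≤ 2 := (norm_sub_le _ _).trans (by linarith [hg (N + k), hg k])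
    have h7 := norm_add_le (∑ n ∈ range N, g (n + (k + 1)) - ∑ n ∈ range N, g (n + k))
      (∑ n ∈ range N, g (n + k) - ∑ n ∈ range N, g n)
    rw [h1] at h7 ⊢
    push_cast
    linarith

theorem sum_dist_le (L u : ℕ) (hu : u < L) (c : ℕ → ℝ) (hc : ∀ h, 0 ≤ c h) :
    ∑ u' ∈ range L, c ((u - u') + (u' - u)) ≤ 2 * ∑ h ∈ range L, c h := by
  have h1 : range L = range u ∪ Ico u L := by
    ext x; simp only [mem_range, mem_union, mem_Ico]; omega
  have hd : Disjoint (range u) (Ico u L) := by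
    rw [Finset.disjoint_left]; intro x; simp only [mem_range, mem_Ico]; omega
  have h2 : ∑ u' ∈ range L, c ((u - u') + (u' - u)) =
      ∑ u' ∈ range u, c (u - u') + ∑ u' ∈ Ico u L, c (u' - u) := by
    conv_lhs => rw [h1]
    rw [Finset.sum_union hd]
    congr 1
    · refine Finset.sum_congr rfl fun x hx => ?_
      rw [mem_range] at hx
      congr 1; omega
    · refine Finset.sum_congr rfl fun x hx => ?_
      rw [mem_Ico] at hx
      congr 1; omega
  have h3 : ∑ u' ∈ range u, c (u - u') ≤ ∑ h ∈ range L, c h := by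
    have : ∑ u' ∈ range u, c (u - u') = ∑ h ∈ (range u).image (fun u' => u - u'), c h := by
      rw [Finset.sum_image]
      intro x hx y hy hxy
      simp only [coe_range, Set.mem_Iio] at hx hy
      simp only at hxy
      omega
    rw [this]
    refine Finset.sum_le_sum_of_subset_of_nonneg ?_ fun i _ _ => hc i
    intro x hx
    simp only [mem_image, mem_range] at hx ⊢
    obtain ⟨y, hy, rfl⟩ := hx
    omega
  have h4 : ∑ u' ∈ Ico u L, c (u' - u) ≤ ∑ h ∈ range L, c h := by
    have : ∑ u' ∈ Ico u L, c (u' - u) = ∑ h ∈ (Ico u L).image (fun u' => u' - u), c h := by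
      rw [Finset.sum_image]
      intro x hx y hy hxy
      simp only [coe_Ico, Set.mem_Ico] at hx hy
      simp only at hxy
      omega
    rw [this]
    refine Finset.sum_le_sum_of_subset_of_nonneg ?_ fun i _ _ => hc i
    intro x hx
    simp only [mem_image, mem_range, mem_Ico] at hx ⊢
    obtain ⟨y, hy, rfl⟩ := hx
    omega
  rw [h2]; linarith

/-- The basic inequality. -/
theorem vdc_sq (v : ℕ → ℂ) (hv : ∀ n, ‖v n‖ ≤ 1) (L N : ℕ) (hL : 1 ≤ L) (hN : 1 ≤ N) :
    ravg N (fun n => ‖avg L (fun u => v (n + u))‖ ^ 2) ≤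
      2 * ravg L (fun h => ‖avg N (fun n => v (n + h) * conj (v n))‖) + 2 * L / N := by
  have hLr : (0 : ℝ) < L := by exact_mod_cast hL
  have hNr : (0 : ℝ) < N := by exact_mod_cast hN
  set c : ℕ → ℝ := fun h => ‖∑ n ∈ range N, v (n + h) * conj (v n)‖ with hc
  -- correlations
  have hcor : ∀ u ∈ range L, ∀ u' ∈ range L,
      ‖∑ n ∈ range N, v (n + u) * conj (v (n + u'))‖ ≤ c ((u - u') + (u' - u)) + 2 * L := by
    have key : ∀ k h : ℕ, k < L → ‖∑ n ∈ range N, v (n + (k + h)) * conj (v (n + k))‖ ≤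
        c h + 2 * L := by
      intro k h hk
      have h1 := shift_sum (fun n => v (n + h) * conj (v n)) (fun n => by
        rw [norm_mul, RCLike.norm_conj]
        exact mul_le_one₀ (hv _) (norm_nonneg _) (hv _)) N k
      have h2 : ∀ n, n + k + h = n + (k + h) := fun n => by ring
      simp only [h2] at h1
      have h3 := norm_sub_norm_le (∑ n ∈ range N, v (n + (k + h)) * conj (v (n + k)))
        (∑ n ∈ range N, v (n + h) * conj (v n))
      have h4 : (k : ℝ) ≤ L := by exact_mod_cast hk.le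
      simp only [hc]
      linarith
    intro u hu u' hu'
    rw [mem_range] at hu hu'
    rcases le_total u' u with h | h
    · have := key u' (u - u') hu'
      rw [Nat.add_sub_cancel' h] at this
      rwa [Nat.sub_eq_zero_of_le h, add_zero]
    · have := key u (u' - u) hu
      rw [Nat.add_sub_cancel' h] at this
      rw [Nat.sub_eq_zero_of_le h, zero_add]
      have h5 : ‖∑ n ∈ range N, v (n + u) * conj (v (n + u'))‖ =
          ‖∑ n ∈ range N, v (n + u') * conj (v (n + u))‖ := by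
        rw [← RCLike.norm_conj, map_sum]
        congr 1
        refine Finset.sum_congr rfl fun n _ => ?_
        rw [map_mul, Complex.conj_conj, mul_comm]
      rw [h5]; exact this
  -- expansion of the square
  have hexp : ∀ n, ‖avg L (fun u => v (n + u))‖ ^ 2 * (L : ℝ) ^ 2 =
      (∑ u ∈ range L, ∑ u' ∈ range L, v (n + u) * conj (v (n + u'))).re := by
    intro n
    have h1 : (∑ u ∈ range L, ∑ u' ∈ range L, v (n + u) * conj (v (n + u'))) =
        (∑ u ∈ range L, v (n + u)) * conj (∑ u ∈ range L, v (n + u)) := by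
      rw [map_sum, Finset.sum_mul_sum]
    rw [h1, Complex.mul_conj, Complex.ofReal_re, Complex.normSq_eq_norm_sq]
    simp only [avg, norm_div, Complex.norm_natCast, div_pow]
    field_simp
  have htot : ravg N (fun n => ‖avg L (fun u => v (n + u))‖ ^ 2) * ((L : ℝ) ^ 2 * N) ≤
      ∑ u ∈ range L, ∑ u' ∈ range L, (c ((u - u') + (u' - u)) + 2 * L) := by
    have h1 : ravg N (fun n => ‖avg L (fun u => v (n + u))‖ ^ 2) * ((L : ℝ) ^ 2 * N) =
        ∑ n ∈ range N, ‖avg L (fun u => v (n + u))‖ ^ 2 * (L : ℝ) ^ 2 := by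
      rw [← Finset.sum_mul]
      simp only [ravg]
      field_simp
    rw [h1, Finset.sum_congr rfl fun n _ => hexp n, ← Complex.re_sum, Finset.sum_comm]
    have h2 : ∀ u ∈ range L, ∑ n ∈ range N, ∑ u' ∈ range L, v (n + u) * conj (v (n + u')) =
        ∑ u' ∈ range L, ∑ n ∈ range N, v (n + u) * conj (v (n + u')) :=
      fun u _ => Finset.sum_comm
    rw [Finset.sum_congr rfl h2]
    refine (Complex.re_le_norm _).trans ((norm_sum_le _ _).trans ?_)
    refine Finset.sum_le_sum fun u hu => (norm_sum_le _ _).trans ?_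
    exact Finset.sum_le_sum fun u' hu' => hcor u hu u' hu'
  have h2 : ∑ u ∈ range L, ∑ u' ∈ range L, (c ((u - u') + (u' - u)) + 2 * (L : ℝ)) ≤
      L * (2 * ∑ h ∈ range L, c h) + 2 * (L : ℝ) ^ 3 := by
    have h3 : ∀ u ∈ range L, ∑ u' ∈ range L, (c ((u - u') + (u' - u)) + 2 * (L : ℝ)) ≤
        2 * ∑ h ∈ range L, c h + 2 * (L : ℝ) ^ 2 := by
      intro u hu
      rw [Finset.sum_add_distrib]
      have := sum_dist_le L u (mem_range.mp hu) c (fun h => norm_nonneg _)
      simp only [Finset.sum_const, card_range, nsmul_eq_mul]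
      nlinarith
    refine (Finset.sum_le_sum h3).trans ?_
    simp only [Finset.sum_const, card_range, nsmul_eq_mul]
    nlinarith
  have h3 : ∑ h ∈ range L, c h =
      ravg L (fun h => ‖avg N (fun n => v (n + h) * conj (v n))‖) * (L * N) := by
    simp only [ravg, avg, norm_div, Complex.norm_natCast, hc]
    rw [← Finset.sum_div]
    field_simp
  rw [h3] at h2
  have h4 : (0 : ℝ) < (L : ℝ) ^ 2 * N := by positivity
  rw [← mul_le_mul_iff_left₀ h4]
  refine htot.trans (h2.trans (le_of_eq ?_))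
  field_simp

theorem ravg_sq_le (N : ℕ) (a : ℕ → ℝ) : ravg N a ^ 2 ≤ ravg N (fun n => a n ^ 2) := by
  rcases Nat.eq_zero_or_pos N with rfl | hN
  · simp [ravg]
  have hNr : (0 : ℝ) < N := by exact_mod_cast hN
  have h := sq_sum_le_card_mul_sum_sq (s := range N) (f := a)
  rw [card_range] at h
  simp only [ravg, div_pow]
  rw [div_le_div_iff₀ (by positivity) hNr]
  nlinarith

/-- averages of window averages -/
theorem avg_window (v : ℕ → ℂ) (hv : ∀ n, ‖v n‖ ≤ 1) (L N : ℕ) (hL : 1 ≤ L) (hN : 1 ≤ N) :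
    ‖avg N v‖ ≤ ravg N (fun n => ‖avg L (fun u => v (n + u))‖) + 2 * L / N := by
  have hLr : (0 : ℝ) < L := by exact_mod_cast hL
  have hNr : (0 : ℝ) < N := by exact_mod_cast hN
  have h1 : avg N (fun n => avg L (fun u => v (n + u))) = avg L (fun u => avg N (fun n => v (n + u))) := by
    simp only [avg]
    rw [← Finset.sum_div, ← Finset.sum_div, Finset.sum_comm, div_div, div_div, mul_comm]
  have h2 : avg L (fun _ => avg N v) = avg N v := by
    simp only [avg, Finset.sum_const, card_range, nsmul_eq_mul]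
    rw [mul_comm, mul_div_assoc, div_self, mul_one]
    exact_mod_cast hLr.ne'
  have h3 : ‖avg N v - avg N (fun n => avg L (fun u => v (n + u)))‖ ≤ 2 * L / N := by
    rw [h1, ← h2, ← avg_sub]
    refine (norm_avg_le _ _).trans ?_
    have h4 : ∀ u ∈ range L, ‖avg N v - avg N (fun n => v (n + u))‖ ≤ 2 * L / N := by
      intro u hu
      rw [mem_range] at hu
      rw [norm_sub_rev]
      simp only [avg]
      rw [← sub_div, norm_div, Complex.norm_natCast]
      refine div_le_div_of_nonneg_right ((shift_sum v hv N u).trans ?_) hNr.le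
      have : (u : ℝ) ≤ L := by exact_mod_cast hu.le
      linarith
    simp only [ravg]
    rw [div_le_iff₀ hLr]
    refine (Finset.sum_le_sum h4).trans (le_of_eq ?_)
    simp only [Finset.sum_const, card_range, nsmul_eq_mul]
    ring
  calc ‖avg N v‖ = ‖avg N (fun n => avg L (fun u => v (n + u))) +
        (avg N v - avg N (fun n => avg L (fun u => v (n + u))))‖ := by ring_nf
    _ ≤ ‖avg N (fun n => avg L (fun u => v (n + u)))‖ +
        ‖avg N v - avg N (fun n => avg L (fun u => v (n + u)))‖ := norm_add_le _ _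
    _ ≤ _ := add_le_add (norm_avg_le _ _) h3

/-- van der Corput inequality -/
theorem vdc_ineq (v : ℕ → ℂ) (hv : ∀ n, ‖v n‖ ≤ 1) (H N : ℕ) (hH : 1 ≤ H) (hN : 1 ≤ N) :
    ‖avg N v‖ ^ 2 ≤
      4 * ravg H (fun h => ‖avg N (fun n => v (n + h) * conj (v n))‖) + 12 * H / N := by
  have hHr : (0 : ℝ) < H := by exact_mod_cast hH
  have hNr : (0 : ℝ) < N := by exact_mod_cast hN
  have h0 : 0 ≤ ravg H (fun h => ‖avg N (fun n => v (n + h) * conj (v n))‖) :=
    ravg_nonneg _ _ fun n => norm_nonneg _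
  rcases le_total N H with hNH | hNH
  · have h1 : ‖avg N v‖ ≤ 1 := norm_avg_le_one N v hv
    have h2 : (1 : ℝ) ≤ H / N := by
      rw [one_le_div hNr]; exact_mod_cast hNH
    have h3 : ‖avg N v‖ ^ 2 ≤ 1 := pow_le_one₀ (norm_nonneg _) h1
    have h4 : 12 * (H : ℝ) / N = 12 * (H / N) := by ring
    rw [h4]; linarith
  · have h1 := avg_window v hv H N hH hN
    have h2 := vdc_sq v hv H N hH hN
    have h3 := ravg_sq_le N (fun n => ‖avg H (fun u => v (n + u))‖)
    set A := ravg N (fun n => ‖avg H (fun u => v (n + u))‖) with hA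
    have hA0 : 0 ≤ A := ravg_nonneg _ _ fun n => norm_nonneg _
    have h4 : (H : ℝ) / N ≤ 1 := by
      rw [div_le_one hNr]; exact_mod_cast hNH
    have h5 : 0 ≤ (H : ℝ) / N := by positivity
    have e1 : 2 * (H : ℝ) / N = 2 * (H / N) := by ring
    have e2 : 12 * (H : ℝ) / N = 12 * (H / N) := by ring
    rw [e1] at h1 h2
    rw [e2]
    set y := (H : ℝ) / N
    have h6 : ‖avg N v‖ ^ 2 ≤ (A + 2 * y) ^ 2 := by
      apply pow_le_pow_left₀ (norm_nonneg _) h1
    nlinarith [sq_nonneg (A - 2 * y)]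

theorem avg_tendsto_of_locNull (v : ℕ → ℂ) (hv : ∀ n, ‖v n‖ ≤ 1) (h : LocNull v) :
    Tendsto (fun N => avg N v) atTop (𝓝 0) := by
  rw [Metric.tendsto_atTop']
  intro ε hε
  obtain ⟨L0, hL0⟩ := h (ε / 4) (by positivity)
  have h1 := hL0 (max L0 1) (le_max_left _ _)
  have h2 : Tendsto (fun N : ℕ => 2 * ((max L0 1 : ℕ) : ℝ) / N) atTop (𝓝 0) :=
    tendsto_const_div_atTop_nhds_zero_nat _
  have h3 : ∀ᶠ N : ℕ in atTop, 2 * ((max L0 1 : ℕ) : ℝ) / N < ε / 4 :=
    h2.eventually_lt_const (by positivity)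
  obtain ⟨N0, hN0⟩ := eventually_atTop.mp (h1.and h3)
  refine ⟨max N0 1, fun N hN => ?_⟩
  obtain ⟨h4, h5⟩ := hN0 N ((le_max_left _ _).trans hN.le)
  have h6 := avg_window v hv (max L0 1) N (le_max_right _ _) ((le_max_right N0 1).trans hN.le)
  rw [dist_zero_right]
  linarith

theorem locNull_of_vdc (v : ℕ → ℂ) (hv : ∀ n, ‖v n‖ ≤ 1)
    (h : ∀ k : ℕ, 1 ≤ k → Tendsto (fun N => avg N (fun n => v (n + k) * conj (v n))) atTop (𝓝 0)) :
    LocNull v := by
  intro ε hε
  obtain ⟨L0, hL0⟩ := exists_nat_gt (8 / ε ^ 2)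
  refine ⟨max L0 1, fun L hL => ?_⟩
  have hL1 : 1 ≤ L := (le_max_right _ _).trans hL
  have hLr : (0 : ℝ) < L := by exact_mod_cast hL1
  have hL2 : 2 / (L : ℝ) ≤ ε ^ 2 / 4 := by
    have : (L0 : ℝ) ≤ L := by exact_mod_cast (le_max_left _ _).trans hL
    rw [div_le_div_iff₀ hLr (by norm_num)]
    have h1 : 8 / ε ^ 2 < L := hL0.trans_le this
    rw [div_lt_iff₀ (by positivity)] at h1
    nlinarith
  have h1 : Tendsto (fun N => 2 * ((∑ h ∈ Ico 1 L, ‖avg N (fun n => v (n + h) * conj (v n))‖) / L) +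
      2 * (L : ℝ) / N) atTop (𝓝 0) := by
    have h2 : Tendsto (fun N => ∑ h ∈ Ico 1 L, ‖avg N (fun n => v (n + h) * conj (v n))‖) atTop
        (𝓝 (∑ h ∈ Ico 1 L, 0)) := by
      refine tendsto_finset_sum _ fun k hk => ?_
      rw [mem_Ico] at hk
      have := (h k hk.1).norm
      simpa using this
    have h3 := ((h2.div_const (L : ℝ)).const_mul 2).add
      (tendsto_const_div_atTop_nhds_zero_nat (2 * (L : ℝ)))
    simpa using h3
  have h2 : ∀ᶠ N : ℕ in atTop, 2 * ((∑ h ∈ Ico 1 L, ‖avg N (fun n => v (n + h) * conj (v n))‖) / L) +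
      2 * (L : ℝ) / N < ε ^ 2 / 4 := h1.eventually_lt_const (by positivity)
  filter_upwards [h2, eventually_ge_atTop 1] with N hN hN1
  have h3 := vdc_sq v hv L N hL1 hN1
  have h4 : ravg L (fun h => ‖avg N (fun n => v (n + h) * conj (v n))‖) ≤
      1 / L + (∑ h ∈ Ico 1 L, ‖avg N (fun n => v (n + h) * conj (v n))‖) / L := by
    simp only [ravg]
    rw [← add_div]
    refine div_le_div_of_nonneg_right ?_ hLr.le
    rw [Finset.range_eq_Ico, Finset.sum_eq_sum_Ico_succ_bot (by omega)]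
    refine add_le_add ?_ le_rfl
    refine norm_avg_le_one _ _ fun n => ?_
    rw [norm_mul, RCLike.norm_conj]
    exact mul_le_one₀ (hv _) (norm_nonneg _) (hv _)
  have h5 := ravg_sq_le N (fun n => ‖avg L (fun u => v (n + u))‖)
  have h6 : ravg N (fun n => ‖avg L (fun u => v (n + u))‖) ^ 2 ≤ ε ^ 2 := by
    have e1 : 2 * (1 / (L : ℝ)) = 2 / L := by ring
    nlinarith [sq_nonneg ε]
  exact (abs_le_of_sq_le_sq' h6 hε.le).2

end Pool.Agent.JE.H44
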